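import Pool.Agent.D0H89.TL.Gal
import Pool.Agent.N113.BT.Main

set_option autoImplicit false
set_option linter.unusedSectionVars false
set_option linter.unusedSimpArgs false
set_option linter.unusedVariables false

/-!
# The complex Lie algebras, in terms of matrices
-/

open Module Function TensorProduct Matrix

noncomputable section

namespace Pool.Agent.D0H89.TL

open Pool.Agent.Y102 Pool.Agent.W516.DR Pool.Agent.H204R3.GP Pool.Agent.W516.KC
  Pool.Agent.H204R3.SP Pool.Agent.TH119.MX Pool.Agent.R917 Pool.Agent.N208.AM Pool.Agent.N113.BT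

variable {g : ℕ} {A : AbVar g}

/-- The complex span of a space of rational endomorphisms, as matrices. -/
def lC (𝔥 : Submodule ℚ (Module.End ℚ A.H1)) : Submodule ℂ (Matrix (Fin (2 * g)) (Fin (2 * g)) ℂ) :=
  Submodule.span ℂ {Y | ∃ X ∈ 𝔥, Y = toC X}

theorem mem_lC {𝔥 : Submodule ℚ (Module.End ℚ A.H1)} {X : Matrix (Fin (2 * g)) (Fin (2 * g)) ℂ} :
    X ∈ lC 𝔥 ↔ matE (2 * g) X ∈ cx 𝔥 := by
  rw [← map_lie 𝔥]
  constructor
  · intro h
    exact ⟨X, h, rfl⟩
  · rintro ⟨Y, hY, h⟩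
    have h1 : Y = X := (matE (2 * g)).injective h
    rwa [← h1]

theorem lC_mono {𝔥 𝔥' : Submodule ℚ (Module.End ℚ A.H1)} (h : 𝔥 ≤ 𝔥') : lC 𝔥 ≤ lC 𝔥' := by
  refine Submodule.span_mono ?_
  rintro _ ⟨X, hX, rfl⟩
  exact ⟨X, h hX, rfl⟩

theorem toC_mem {𝔥 : Submodule ℚ (Module.End ℚ A.H1)} {X : Module.End ℚ A.H1} (hX : X ∈ 𝔥) :
    toC X ∈ lC 𝔥 := Submodule.subset_span ⟨X, hX, rfl⟩

/-- The entries of the matrices of rational endomorphisms are fixed by the automorphisms. -/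
theorem map_toC (τ : ℂ ≃+* ℂ) (X : Module.End ℚ A.H1) : (toC X).map τ = toC X := by
  ext i j
  rw [Matrix.map_apply]
  exact map_ratCast τ _

theorem map_mem_lC {𝔥 : Submodule ℚ (Module.End ℚ A.H1)} (τ : ℂ ≃+* ℂ)
    {X : Matrix (Fin (2 * g)) (Fin (2 * g)) ℂ} (hX : X ∈ lC 𝔥) : X.map τ ∈ lC 𝔥 := by
  unfold lC at hX
  induction hX using Submodule.span_induction with
  | mem X hX =>
    obtain ⟨Y, hY, rfl⟩ := hX
    rw [map_toC]
    exact toC_mem hY
  | zero =>
    rw [Matrix.map_zero _ (map_zero τ)]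
    exact Submodule.zero_mem _
  | add a b _ _ ha hb =>
    rw [Matrix.map_add _ (map_add τ)]
    exact Submodule.add_mem _ ha hb
  | smul c a _ ha =>
    have h1 : (c • a).map τ = τ c • a.map τ := by
      ext i j
      simp
    rw [h1]
    exact Submodule.smul_mem _ _ ha

/-! ### Full subalgebras -/

section Full

variable {𝔥 : Submodule ℚ (Module.End ℚ A.H1)} (h : A.Full 𝔥)
include h

theorem f_br : ∀ X ∈ lC 𝔥, ∀ Y ∈ lC 𝔥, X * Y - Y * X ∈ lC 𝔥 := by
  intro X hX Y hY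
  rw [mem_lC] at hX hY ⊢
  rw [map_sub, map_mul, map_mul]
  exact h.cx_br' _ hX _ hY

theorem f_der : lC (der 𝔥) ≤ lC 𝔥 := lC_mono h.der_le

theorem f_perf : lC (der 𝔥) ≤
    Submodule.span ℂ {Z | ∃ X ∈ lC (der 𝔥), ∃ Y ∈ lC (der 𝔥), Z = X * Y - Y * X} := by
  have key : ∀ Z ∈ Submodule.span ℂ {Z | ∃ X ∈ cx (der 𝔥), ∃ Y ∈ cx (der 𝔥), Z = X * Y - Y * X},
      (matE (2 * g)).symm Z ∈
        Submodule.span ℂ {Z | ∃ X ∈ lC (der 𝔥), ∃ Y ∈ lC (der 𝔥), Z = X * Y - Y * X} := by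
    intro Z hZ
    induction hZ using Submodule.span_induction with
    | mem Z hZ =>
      obtain ⟨X, hX, Y, hY, rfl⟩ := hZ
      refine Submodule.subset_span ⟨(matE (2 * g)).symm X, ?_, (matE (2 * g)).symm Y, ?_, ?_⟩
      · rw [mem_lC, AlgEquiv.apply_symm_apply]
        exact hX
      · rw [mem_lC, AlgEquiv.apply_symm_apply]
        exact hY
      · rw [map_sub, map_mul, map_mul]
    | zero => rw [map_zero]; exact Submodule.zero_mem _
    | add a b _ _ ha hb => rw [map_add]; exact Submodule.add_mem _ ha hb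
    | smul c a _ ha => rw [map_smul]; exact Submodule.smul_mem _ _ ha
  intro X hX
  have h1 := key _ (h.cx_perfect (mem_lC.1 hX))
  rwa [AlgEquiv.symm_apply_apply] at h1

theorem f_dec : ∀ X ∈ lC 𝔥, ∃ Z ∈ lC 𝔥, ∃ d ∈ lC (der 𝔥), X = Z + d ∧
    ∀ Y ∈ lC 𝔥, Z * Y = Y * Z := by
  intro X hX
  obtain ⟨Z, hZ, d, hd, h1, h2⟩ := h.cx_dec _ (mem_lC.1 hX)
  refine ⟨(matE (2 * g)).symm Z, ?_, (matE (2 * g)).symm d, ?_, ?_, fun Y hY => ?_⟩
  · rw [mem_lC, AlgEquiv.apply_symm_apply]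
    exact hZ
  · rw [mem_lC, AlgEquiv.apply_symm_apply]
    exact hd
  · rw [← map_add, ← h1, AlgEquiv.symm_apply_apply]
  · apply (matE (2 * g)).injective
    rw [map_mul, map_mul, AlgEquiv.apply_symm_apply]
    exact h2 _ (mem_lC.1 hY)

theorem f_com (T : Matrix (Fin (2 * g)) (Fin (2 * g)) ℂ) (hT : ∀ X ∈ lC 𝔥, T * X = X * T) :
    ∀ X ∈ lC A.NA, T * X = X * T := by
  intro X hX
  apply (matE (2 * g)).injective
  rw [map_mul, map_mul]
  refine h.cx_com (matE (2 * g) T) (fun Y hY => ?_) _ (mem_lC.1 hX)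
  have h1 := hT ((matE (2 * g)).symm Y) (by
    rw [mem_lC, AlgEquiv.apply_symm_apply]
    exact hY)
  have h2 := congrArg (matE (2 * g)) h1
  rw [map_mul, map_mul, AlgEquiv.apply_symm_apply] at h2
  exact h2

end Full

/-! ### Real endomorphisms -/

/-- The complex matrix of a real endomorphism. -/
def mR (A : AbVar g) (T : Module.End ℝ (Fin g → ℂ)) : Matrix (Fin (2 * g)) (Fin (2 * g)) ℂ :=
  (Complex.ofRealHom : ℝ →+* ℂ).mapMatrix (LinearMap.toMatrixAlgEquiv A.lam T)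

theorem mR_mul (S T : Module.End ℝ (Fin g → ℂ)) : mR A (S * T) = mR A S * mR A T := by
  unfold mR
  rw [map_mul, map_mul]

theorem mR_add (S T : Module.End ℝ (Fin g → ℂ)) : mR A (S + T) = mR A S + mR A T := by
  unfold mR
  rw [map_add, map_add]

theorem mR_sub (S T : Module.End ℝ (Fin g → ℂ)) : mR A (S - T) = mR A S - mR A T := by
  unfold mR
  rw [map_sub, map_sub]

theorem mR_neg_one : mR A (-1) = -1 := by
  unfold mR
  rw [map_neg, map_neg, map_one, map_one]

theorem mR_zero : mR A 0 = 0 := by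
  unfold mR
  rw [map_zero, map_zero]

theorem mR_smul (c : ℝ) (T : Module.End ℝ (Fin g → ℂ)) : mR A (c • T) = (c : ℂ) • mR A T := by
  unfold mR
  rw [map_smul]
  ext i j
  simp

theorem mR_apply (T : Module.End ℝ (Fin g → ℂ)) (i j : Fin (2 * g)) :
    mR A T i j = ((A.lam.repr (T (A.lam j)) i : ℝ) : ℂ) := by
  unfold mR
  rw [RingHom.mapMatrix_apply, Matrix.map_apply, LinearMap.toMatrixAlgEquiv_apply]
  rfl

theorem mR_inj {S T : Module.End ℝ (Fin g → ℂ)} (h : mR A S = mR A T) : S = T := by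
  refine A.lam.ext fun j => ?_
  apply A.lam.repr.injective
  ext i
  have h1 := congrFun (congrFun h i) j
  rw [mR_apply, mR_apply] at h1
  exact_mod_cast h1

theorem mR_ext (X : Module.End ℚ A.H1) : mR A (A.ext X) = toC X := by
  ext i j
  rw [mR_apply, A.ext_lam, A.repr_per]
  have h1 : A.bas j = Pi.single j 1 := by
    unfold AbVar.bas
    rw [Pi.basisFun_apply]
  rw [h1]
  unfold toC
  rw [Matrix.of_apply]
  push_cast
  rfl

theorem mR_conj (T : Module.End ℝ (Fin g → ℂ)) : (mR A T).map (starRingAut : ℂ ≃+* ℂ) = mR A T := by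
  ext i j
  rw [Matrix.map_apply, mR_apply]
  exact Complex.conj_ofReal _

theorem mR_trace (T : Module.End ℝ (Fin g → ℂ)) :
    (mR A T).trace = ((LinearMap.trace ℝ (Fin g → ℂ) T : ℝ) : ℂ) := by
  rw [LinearMap.trace_eq_matrix_trace ℝ A.lam, Matrix.trace, Matrix.trace]
  push_cast
  rfl

theorem mR_JJ : mR A AbVar.JJ * mR A AbVar.JJ = -1 := by
  rw [← mR_mul, JJ_sq, mR_neg_one]

theorem JJ_mem : mR A AbVar.JJ ∈ lC A.NA := by
  obtain ⟨t, ht⟩ := JJ_eq (A := A)
  have h1 : mR A AbVar.JJ = ∑ k ∈ t, ((Basis.ofVectorSpace ℚ ℝ k : ℝ) : ℂ) •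
      toC (A.cmpE ((Basis.ofVectorSpace ℚ ℝ).coord k) AbVar.JJ) := by
    conv_lhs => rw [ht]
    have h2 : ∀ s : Finset (Basis.ofVectorSpaceIndex ℚ ℝ),
        mR A (∑ k ∈ s, (Basis.ofVectorSpace ℚ ℝ k) •
          A.ext (A.cmpE ((Basis.ofVectorSpace ℚ ℝ).coord k) AbVar.JJ)) =
        ∑ k ∈ s, ((Basis.ofVectorSpace ℚ ℝ k : ℝ) : ℂ) •
          toC (A.cmpE ((Basis.ofVectorSpace ℚ ℝ).coord k) AbVar.JJ) := by
      intro s
      classical
      induction s using Finset.induction_on with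
      | empty => rw [Finset.sum_empty, Finset.sum_empty, mR_zero]
      | insert a s ha ih =>
        rw [Finset.sum_insert ha, Finset.sum_insert ha, mR_add, mR_smul, mR_ext, ih]
    exact h2 t
  rw [h1]
  exact Submodule.sum_mem _ fun k _ => Submodule.smul_mem _ _
    (toC_mem (A.MA_le_NA (A.J_mem _)))

/-- The real span. -/
def lR (𝔥 : Submodule ℚ (Module.End ℚ A.H1)) : Submodule ℝ (Module.End ℝ (Fin g → ℂ)) :=
  Submodule.span ℝ {T | ∃ X ∈ 𝔥, T = A.ext X}

theorem exists_parts {𝔥 : Submodule ℚ (Module.End ℚ A.H1)}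
    {Y : Matrix (Fin (2 * g)) (Fin (2 * g)) ℂ} (hY : Y ∈ lC 𝔥) :
    ∃ T1 ∈ lR 𝔥, ∃ T2 ∈ lR 𝔥, Y = mR A T1 + Complex.I • mR A T2 := by
  unfold lC at hY
  induction hY using Submodule.span_induction with
  | mem Y hY =>
    obtain ⟨X, hX, rfl⟩ := hY
    exact ⟨A.ext X, Submodule.subset_span ⟨X, hX, rfl⟩, 0, Submodule.zero_mem _, by
      rw [mR_ext, mR_zero, smul_zero, add_zero]⟩
  | zero => exact ⟨0, Submodule.zero_mem _, 0, Submodule.zero_mem _, by
      rw [mR_zero, smul_zero, add_zero]⟩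
  | add a b _ _ ha hb =>
    obtain ⟨S1, h1, S2, h2, rfl⟩ := ha
    obtain ⟨T1, h3, T2, h4, rfl⟩ := hb
    refine ⟨S1 + T1, Submodule.add_mem _ h1 h3, S2 + T2, Submodule.add_mem _ h2 h4, ?_⟩
    rw [mR_add, mR_add]
    module
  | smul c a _ ha =>
    obtain ⟨S1, h1, S2, h2, rfl⟩ := ha
    refine ⟨c.re • S1 - c.im • S2, Submodule.sub_mem _ (Submodule.smul_mem _ _ h1)
      (Submodule.smul_mem _ _ h2), c.re • S2 + c.im • S1, Submodule.add_mem _
      (Submodule.smul_mem _ _ h2) (Submodule.smul_mem _ _ h1), ?_⟩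
    rw [mR_sub, mR_add, mR_smul, mR_smul, mR_smul, mR_smul]
    have hc : c = c.re + c.im * Complex.I := (Complex.re_add_im c).symm
    conv_lhs => rw [hc]
    have h5 : ((c.re : ℂ) + c.im * Complex.I) • (Complex.I • mR A S2) =
        ((c.re : ℂ) * Complex.I - c.im) • mR A S2 := by
      rw [smul_smul]
      congr 1
      linear_combination (c.im : ℂ) * Complex.I_mul_I
    rw [smul_add, h5]
    module

theorem exists_real {𝔥 : Submodule ℚ (Module.End ℚ A.H1)}
    {Y : Matrix (Fin (2 * g)) (Fin (2 * g)) ℂ} (hY : Y ∈ lC 𝔥)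
    (hc : Y.map (starRingAut : ℂ ≃+* ℂ) = Y) : ∃ T ∈ lR 𝔥, Y = mR A T := by
  obtain ⟨T1, h1, T2, h2, rfl⟩ := exists_parts hY
  refine ⟨T1, h1, ?_⟩
  have h3 : (mR A T1 + Complex.I • mR A T2).map (starRingAut : ℂ ≃+* ℂ) =
      mR A T1 - Complex.I • mR A T2 := by
    ext i j
    rw [Matrix.map_apply, Matrix.add_apply, Matrix.smul_apply, smul_eq_mul, map_add, map_mul,
      Matrix.sub_apply, Matrix.smul_apply, smul_eq_mul]
    have e1 : (starRingAut : ℂ ≃+* ℂ) (mR A T1 i j) = mR A T1 i j := by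
      rw [mR_apply]
      exact Complex.conj_ofReal _
    have e2 : (starRingAut : ℂ ≃+* ℂ) (mR A T2 i j) = mR A T2 i j := by
      rw [mR_apply]
      exact Complex.conj_ofReal _
    have e3 : (starRingAut : ℂ ≃+* ℂ) Complex.I = -Complex.I := Complex.conj_I
    rw [e1, e2, e3]
    ring
  rw [h3] at hc
  have h4 : (2 * Complex.I : ℂ) • mR A T2 = 0 := by
    have h5 : (2 * Complex.I : ℂ) • mR A T2 = (mR A T1 + Complex.I • mR A T2) -
        (mR A T1 - Complex.I • mR A T2) := by module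
    rw [h5, hc, sub_self]
  have h5 := (smul_eq_zero.1 h4).resolve_left (by simp [Complex.I_ne_zero])
  rw [h5, smul_zero, add_zero]

theorem lR_skew {T : Module.End ℝ (Fin g → ℂ)} (hT : T ∈ lR (A := A) A.NA) (u v : Fin g → ℂ) :
    A.E (T u) v = -A.E u (T v) := by
  unfold lR at hT
  induction hT using Submodule.span_induction with
  | mem T hT =>
    obtain ⟨X, hX, rfl⟩ := hT
    have h2 : A.E.comp (A.ext X) = -(A.E.flip.comp (A.ext X)).flip := by
      refine A.ext_per fun u => A.ext_per fun v => ?_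
      change A.E (A.ext X (A.per u)) (A.per v) = -A.E (A.per u) (A.ext X (A.per v))
      rw [A.ext_apply, A.ext_apply, ← A.om_coe, ← A.om_coe, ← Rat.cast_neg]
      congr 1
      linear_combination A.NA_skew hX u v
    exact congrArg (fun F : (Fin g → ℂ) →ₗ[ℝ] (Fin g → ℂ) →ₗ[ℝ] ℝ => F u v) h2
  | zero => simp
  | add a b _ _ ha hb =>
    rw [LinearMap.add_apply, LinearMap.add_apply, map_add, map_add, LinearMap.add_apply, ha, hb]
    ring
  | smul c a _ ha =>
    rw [LinearMap.smul_apply, LinearMap.smul_apply, map_smul, map_smul, LinearMap.smul_apply, ha,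
      smul_neg]

/-- **Positivity.** -/
theorem trace_pos {T : Module.End ℝ (Fin g → ℂ)} (hT : ∀ u v, A.E (T u) v = -A.E u (T v))
    (h0 : T ≠ 0) : 0 < LinearMap.trace ℝ (Fin g → ℂ) (T * (AbVar.JJ * T * AbVar.JJ)) := by
  classical
  obtain ⟨T', hT'⟩ : ∃ T' : Module.End ℝ (Fin g → ℂ), T' = AbVar.JJ * T * AbVar.JJ := ⟨_, rfl⟩
  have hadj : ∀ u v, A.PF (T u) v = A.PF u (T' v) := by
    intro u v
    rw [hT', A.PF_apply, A.PF_apply, hT, Module.End.mul_apply, Module.End.mul_apply,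
      AbVar.JJ_apply, AbVar.JJ_apply, smul_smul, Complex.I_mul_I, neg_one_smul, map_neg]
  have hT0 : T' ≠ 0 := by
    intro h1
    apply h0
    have h2 : T = AbVar.JJ * T' * AbVar.JJ := by
      refine LinearMap.ext fun u => ?_
      rw [hT']
      simp only [Module.End.mul_apply, AbVar.JJ_apply, smul_smul, Complex.I_mul_I, neg_one_smul,
        map_neg, neg_neg]
    rw [h2, h1, mul_zero, zero_mul]
  rw [← hT']
  have hsym : LinearMap.IsSymm (A.PF) := ⟨fun u v => by rw [RingHom.id_apply]; exact A.PF_symm u v⟩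
  obtain ⟨v, hv⟩ := LinearMap.BilinForm.exists_orthogonal_basis hsym
  have hrepr : ∀ x i, v.repr x i * A.PF (v i) (v i) = A.PF x (v i) := by
    intro x i
    conv_rhs => rw [← v.sum_repr x]
    rw [map_sum, LinearMap.sum_apply, Finset.sum_eq_single i]
    · rw [map_smul, LinearMap.smul_apply, smul_eq_mul]
    · intro j _ hj
      rw [map_smul, LinearMap.smul_apply]
      have h1 : A.PF (v j) (v i) = 0 := hv hj
      rw [h1, smul_zero]
    · intro h
      exact absurd (Finset.mem_univ _) h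
  have hpos : ∀ i, 0 < A.PF (v i) (v i) := fun i => A.PF_pos (v.ne_zero i)
  have hterm : ∀ i, v.repr (T (T' (v i))) i = A.PF (T' (v i)) (T' (v i)) / A.PF (v i) (v i) := by
    intro i
    rw [eq_div_iff (hpos i).ne', hrepr, hadj]
  have hnn : ∀ i ∈ Finset.univ, 0 ≤ A.PF (T' (v i)) (T' (v i)) / A.PF (v i) (v i) := by
    intro i _
    refine div_nonneg ?_ (hpos i).le
    by_cases h : T' (v i) = 0
    · rw [h, map_zero]
    · exact (A.PF_pos h).le
  have htr : LinearMap.trace ℝ (Fin g → ℂ) (T * T') =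
      ∑ i, A.PF (T' (v i)) (T' (v i)) / A.PF (v i) (v i) := by
    rw [LinearMap.trace_eq_matrix_trace ℝ v, Matrix.trace]
    refine Finset.sum_congr rfl fun i _ => ?_
    rw [Matrix.diag_apply, LinearMap.toMatrix_apply]
    exact hterm i
  rw [htr]
  refine lt_of_le_of_ne (Finset.sum_nonneg hnn) fun h1 => ?_
  apply hT0
  refine v.ext fun i => ?_
  have h2 := (Finset.sum_eq_zero_iff_of_nonneg hnn).1 h1.symm i (Finset.mem_univ _)
  rw [LinearMap.zero_apply]
  by_contra hne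
  rw [div_eq_zero_iff] at h2
  rcases h2 with h2 | h2
  · exact (A.PF_pos hne).ne' h2
  · exact (hpos i).ne' h2

/-- Positivity, for matrices. -/
theorem pos_lC {Y : Matrix (Fin (2 * g)) (Fin (2 * g)) ℂ} (hY : Y ∈ lC (A := A) A.NA)
    (hc : Y.map (starRingAut : ℂ ≃+* ℂ) = Y) (h0 : Y ≠ 0) :
    0 < (Y * mR A AbVar.JJ * Y * mR A AbVar.JJ).trace.re := by
  obtain ⟨T, hT, rfl⟩ := exists_real hY hc
  have h1 : T ≠ 0 := by
    intro h2
    apply h0
    rw [h2, mR_zero]
  have h2 := trace_pos (lR_skew hT) h1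
  rw [← mR_mul, ← mR_mul, ← mR_mul, mR_trace, Complex.ofReal_re]
  have h3 : T * AbVar.JJ * T * AbVar.JJ = T * (AbVar.JJ * T * AbVar.JJ) := by
    simp only [mul_assoc]
  rw [h3]
  exact h2

end Pool.Agent.D0H89.TL
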