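import Pool.Agent.D0H89.TL.Unl
import Pool.Agent.D0H89.TL.Mot

set_option autoImplicit false
set_option linter.unusedSectionVars false
set_option linter.unusedSimpArgs false
set_option linter.unusedVariables false

/-!
# Unlinked colourings: a numerical criterion, and the main theorem
-/

open Module Function TensorProduct Matrix

noncomputable section

namespace Pool.Agent.D0H89.TL

open Pool.Agent.Y102 Pool.Agent.W516.DR Pool.Agent.H204R3.GP Pool.Agent.W516.KC
  Pool.Agent.H204R3.SP Pool.Agent.TH119.MX Pool.Agent.R917 Pool.Agent.N208.AM Pool.Agent.N113.BT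

variable {g : ℕ} {A : AbVar g} {I : Type} [Fintype I] [DecidableEq I]
  {φ : I → TA.S →ₗ[ℂ] Matrix (Fin (2 * g)) (Fin (2 * g)) ℂ}

/-- Classes of the same size. -/
theorem dvd_card {r : I → I → Prop} (hr : Equivalence r) {b : ℕ} (s : Finset I)
    (hs : ∀ i ∈ s, ∀ k, r i k → k ∈ s)
    (hb : ∀ i, Nat.card {k // r i k} = b) : b ∣ s.card := by
  classical
  let st : Setoid I := ⟨r, hr⟩
  rw [Finset.card_eq_sum_card_image (fun i => Quotient.mk st i) s]
  refine Finset.dvd_sum fun q hq => ?_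
  obtain ⟨i, hi, rfl⟩ := Finset.mem_image.1 hq
  have h1 : {a ∈ s | Quotient.mk st a = Quotient.mk st i} = Finset.univ.filter fun k => r i k := by
    ext a
    rw [Finset.mem_filter, Finset.mem_filter]
    constructor
    · rintro ⟨-, h2⟩
      exact ⟨Finset.mem_univ _, hr.symm (Quotient.exact (s := st) h2)⟩
    · rintro ⟨-, h2⟩
      exact ⟨hs i hi a h2, Quotient.sound (s := st) (hr.symm h2)⟩
  rw [h1]
  have h2 := hb i
  rw [Nat.card_eq_fintype_card, Fintype.card_subtype] at h2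
  exact dvd_of_eq h2.symm

/-- If the automorphisms of the complex numbers permute the colours transitively, and the number of
the colours is prime to the number of the noncompact colours, there are no links. -/
theorem unl_of_coprime (h : Col φ (lC A.NA))
    (hgal : ∀ (τ : ℂ ≃+* ℂ) i, ∃ k, Mp φ (fun Y => Y.map τ) i k)
    (htr : ∀ i k, ∃ τ : ℂ ≃+* ℂ, Mp φ (fun Y => Y.map τ) i k)
    (hco : Nat.Coprime (Nat.card I)
      (Nat.card {i // ¬ ∀ x, φ i x * mR A AbVar.JJ = mR A AbVar.JJ * φ i x}))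
    (r : I → I → Prop) (hr : IsLink A φ r) (i k : I) (hik : r i k) : i = k := by
  classical
  have hle : ∀ i i', Nat.card {k // r i k} ≤ Nat.card {k // r i' k} := by
    intro i i'
    obtain ⟨τ, hτ⟩ := htr i i'
    choose f hf using hgal τ
    have hinj : Function.Injective f := by
      intro a b hab
      exact h.mp_inj (RingEquiv.mapMatrix τ) (hf a) (by rw [hab]; exact hf b)
    refine Nat.card_le_card_of_injective
      (fun x : {k // r i k} => (⟨f x.1, hr.gal τ i x.1 i' (f x.1) hτ (hf x.1) x.2⟩ :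
        {k // r i' k})) ?_
    intro a b hab
    exact Subtype.ext (hinj (congrArg Subtype.val hab))
  have hb : ∀ i', Nat.card {k // r i' k} = Nat.card {k // r i k} := fun i' =>
    le_antisymm (hle i' i) (hle i i')
  have h1 : Nat.card {k // r i k} ∣ Nat.card I := by
    rw [Nat.card_eq_fintype_card (α := I), ← Finset.card_univ]
    exact dvd_card hr.equiv Finset.univ (fun _ _ k _ => Finset.mem_univ k) hb
  have h2 : Nat.card {k // r i k} ∣
      Nat.card {i // ¬ ∀ x, φ i x * mR A AbVar.JJ = mR A AbVar.JJ * φ i x} := by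
    rw [Nat.card_eq_fintype_card (α := {i // ¬ ∀ x, φ i x * mR A AbVar.JJ =
      mR A AbVar.JJ * φ i x}), Fintype.card_subtype]
    refine dvd_card hr.equiv _ (fun a ha b hab => ?_) hb
    rw [Finset.mem_filter] at ha ⊢
    exact ⟨Finset.mem_univ _, fun hc => ha.2 (hr.cpt b a (hr.equiv.symm hab) hc)⟩
  have h3 : Nat.card {k // r i k} = 1 := by
    have h4 := Nat.dvd_gcd h1 h2
    rw [hco] at h4
    exact Nat.dvd_one.1 h4
  rw [Nat.card_eq_one_iff_unique] at h3
  have h5 := h3.1.elim ⟨i, hr.equiv.refl i⟩ ⟨k, hik⟩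
  exact congrArg Subtype.val h5

/-- The elements which commute with the colours. -/
def KC (φ : I → TA.S →ₗ[ℂ] Matrix (Fin (2 * g)) (Fin (2 * g)) ℂ) :
    Submodule ℂ (Module.End ℂ (ℂ ⊗[ℚ] A.H1)) where
  carrier := {z | RC φ ((matE (2 * g)).symm z)}
  zero_mem' := by
    change RC φ ((matE (2 * g)).symm 0)
    rw [map_zero]
    exact RC.zero
  add_mem' := by
    intro a b ha hb
    change RC φ ((matE (2 * g)).symm (a + b))
    rw [map_add]
    exact RC.add ha hb
  smul_mem' := by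
    intro c a ha
    change RC φ ((matE (2 * g)).symm (c • a))
    rw [map_smul]
    exact RC.smul c ha

theorem mem_KC {z : Module.End ℂ (ℂ ⊗[ℚ] A.H1)} :
    z ∈ KC (A := A) φ ↔ RC φ ((matE (2 * g)).symm z) := Iff.rfl

theorem KC_br (h : Col φ (lC A.NA)) {z : Module.End ℂ (ℂ ⊗[ℚ] A.H1)} (hz : z ∈ KC (A := A) φ)
    {X : Module.End ℚ A.H1} (hX : X ∈ A.NA) :
    z * X.baseChange ℂ - X.baseChange ℂ * z ∈ KC (A := A) φ := by
  rw [mem_KC] at hz ⊢
  have h1 : (matE (2 * g)).symm (X.baseChange ℂ) = toC X := by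
    rw [← matE_toC, AlgEquiv.symm_apply_apply]
  rw [map_sub, map_mul, map_mul, h1]
  obtain ⟨ξ, hξ⟩ := h.dec _ (toC_mem hX)
  have h2 : (matE (2 * g)).symm z * toC X - toC X * (matE (2 * g)).symm z =
      (matE (2 * g)).symm z * (toC X - ∑ i, φ i (ξ i)) -
        (toC X - ∑ i, φ i (ξ i)) * (matE (2 * g)).symm z := by
    rw [mul_sub, sub_mul, hz.sum ξ]
    abel
  rw [h2]
  exact (hz.mul hξ.2).sub (hξ.2.mul hz)

section motive

variable {s n : ℕ} {r : Fin s → ℕ} {B : Fin n → Ten A r} {w : Fin s → ℤ}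
  {P : Matrix (Fin n) (Fin n) ℂ} {Wt : Matrix (Fin n) (Fin n) ℚ}
  {H : Set (Matrix (Fin n) (Fin n) ℂ)} {N : Matrix (Fin n) (Fin n) ℝ}

theorem K2_of (h : Col φ (lC A.NA))
    (hgal : ∀ (τ : ℂ ≃+* ℂ) i, ∃ k, Mp φ (fun Y => Y.map τ) i k)
    (hU : ∀ r, IsLink A φ r → ∀ i k, r i k → i = k) {𝔮 : Submodule ℚ (Module.End ℚ A.H1)}
    (hq : A.Full 𝔮) : ∀ X ∈ der A.NA, ∃ y ∈ cx (der 𝔮), X.baseChange ℂ - y ∈ KC (A := A) φ := by
  intro X hX
  obtain ⟨y, hy, h1⟩ := der_full h hgal hU hq hX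
  refine ⟨matE (2 * g) y, mem_lC.1 hy, ?_⟩
  rw [mem_KC, map_sub, AlgEquiv.symm_apply_apply, ← matE_toC, AlgEquiv.symm_apply_apply]
  exact h1

/-- The condition on the pairs, in terms of matrices. -/
theorem alpha_ofK {T : Submodule ℚ (Module.End ℚ A.H1)}
    (hα : ∀ p ∈ Submodule.span ℂ {p : Matrix (Fin (2 * g)) (Fin (2 * g)) ℂ ×
      Matrix (Fin n) (Fin n) ℂ | ∃ X ∈ T, ∃ M, Rel B X M ∧ p = (toC X, cq M)},
      RC φ p.1 → p.2 * cxm N = cxm N * p.2) :
    ∀ p ∈ pC B T, p.1 ∈ KC (A := A) φ → p.2 * cxm N = cxm N * p.2 := by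
  intro p hp h0
  have key : ∀ p ∈ pC B T, ∃ x, matE (2 * g) x = p.1 ∧ (x, p.2) ∈
      Submodule.span ℂ {p : Matrix (Fin (2 * g)) (Fin (2 * g)) ℂ × Matrix (Fin n) (Fin n) ℂ |
        ∃ X ∈ T, ∃ M, Rel B X M ∧ p = (toC X, cq M)} := by
    intro p hp
    induction hp using Submodule.span_induction with
    | mem p hp =>
      obtain ⟨X, hX, M, hM, rfl⟩ := hp
      exact ⟨toC X, matE_toC X, Submodule.subset_span ⟨X, hX, M, hM, rfl⟩⟩
    | zero => exact ⟨0, map_zero _, Submodule.zero_mem _⟩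
    | add p q _ _ hp hq =>
      obtain ⟨x, hx, hx'⟩ := hp
      obtain ⟨y, hy, hy'⟩ := hq
      exact ⟨x + y, by rw [map_add, hx, hy]; rfl, Submodule.add_mem _ hx' hy'⟩
    | smul c p _ hp =>
      obtain ⟨x, hx, hx'⟩ := hp
      exact ⟨c • x, by rw [map_smul, hx]; rfl, Submodule.smul_mem _ c hx'⟩
  obtain ⟨x, hx, hx'⟩ := key p hp
  refine hα _ hx' ?_
  rw [mem_KC, ← hx, AlgEquiv.symm_apply_apply] at h0
  exact h0

end motive

end Pool.Agent.D0H89.TL
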