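import Pool.Agent.Y102.T4

set_option autoImplicit false
set_option linter.unusedSectionVars false
set_option linter.unusedSimpArgs false
set_option linter.unusedVariables false

/-!
# Colours: commuting ideals `sl(2)` of a Lie algebra of operators

(The rest of the Lie algebra commutes with the colours, but it need not be central.)
-/

open Matrix

noncomputable section

namespace Pool.Agent.D0H89.TL

open Pool.Agent.Y102.TA

variable {R : Type} [Ring R] [Algebra ℂ R] {I : Type} [Fintype I] [DecidableEq I]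

/-- `z` commutes with all the colours. -/
def RC (φ : I → S →ₗ[ℂ] R) (z : R) : Prop := ∀ i a, z * φ i a = φ i a * z

/-- `X` is the sum of the `φ_i (ξ_i)` and an element which commutes with the colours. -/
def DecR (φ : I → S →ₗ[ℂ] R) (X : R) (ξ : I → S) : Prop :=
  (∀ i, (ξ i).trace = 0) ∧ RC φ (X - ∑ i, φ i (ξ i))

/-- A colouring. -/
structure Col (φ : I → S →ₗ[ℂ] R) (M : Submodule ℂ R) : Prop where
  mul : ∀ i a b, φ i (a * b) = φ i a * φ i b
  comm : ∀ i k, i ≠ k → ∀ a b, φ i a * φ k b = φ k b * φ i a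
  one : ∀ i, φ i 1 ≠ 0
  mem : ∀ i (x : S), x.trace = 0 → φ i x ∈ M
  dec : ∀ X ∈ M, ∃ ξ, DecR φ X ξ

section basic

variable {φ : I → S →ₗ[ℂ] R}

theorem RC.add {z w : R} (hz : RC φ z) (hw : RC φ w) : RC φ (z + w) :=
  fun i a => by rw [add_mul, mul_add, hz i a, hw i a]

theorem RC.smul {z : R} (c : ℂ) (hz : RC φ z) : RC φ (c • z) :=
  fun i a => by rw [smul_mul_assoc, mul_smul_comm, hz i a]

theorem RC.zero : RC φ (0 : R) := fun i a => by rw [zero_mul, mul_zero]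

theorem RC.sub {z w : R} (hz : RC φ z) (hw : RC φ w) : RC φ (z - w) :=
  fun i a => by rw [sub_mul, mul_sub, hz i a, hw i a]

theorem RC.mul {z w : R} (hz : RC φ z) (hw : RC φ w) : RC φ (z * w) :=
  fun i a => by rw [mul_assoc, hw i a, ← mul_assoc, hz i a, mul_assoc]

theorem RC.sum {z : R} (hz : RC φ z) (ξ : I → S) :
    z * ∑ i, φ i (ξ i) = (∑ i, φ i (ξ i)) * z := by
  rw [Finset.mul_sum, Finset.sum_mul]
  exact Finset.sum_congr rfl fun i _ => hz i _

theorem DecR.add {X Y : R} {ξ η : I → S} (h1 : DecR φ X ξ) (h2 : DecR φ Y η) :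
    DecR φ (X + Y) (ξ + η) := by
  refine ⟨fun i => by rw [Pi.add_apply, Matrix.trace_add, h1.1, h2.1, add_zero], ?_⟩
  have h3 := h1.2.add h2.2
  have h4 : X + Y - ∑ i, φ i ((ξ + η) i) = X - ∑ i, φ i (ξ i) + (Y - ∑ i, φ i (η i)) := by
    simp only [Pi.add_apply, map_add, Finset.sum_add_distrib]
    abel
  rwa [h4]

theorem DecR.smul {X : R} {ξ : I → S} (c : ℂ) (h1 : DecR φ X ξ) : DecR φ (c • X) (c • ξ) := by
  refine ⟨fun i => by rw [Pi.smul_apply, Matrix.trace_smul, h1.1, smul_zero], ?_⟩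
  have h3 := h1.2.smul c
  have h4 : c • X - ∑ i, φ i ((c • ξ) i) = c • (X - ∑ i, φ i (ξ i)) := by
    simp only [Pi.smul_apply, map_smul, smul_sub, Finset.smul_sum]
  rwa [h4]

theorem DecR.zero : DecR φ (0 : R) 0 := by
  refine ⟨fun i => by rw [Pi.zero_apply, Matrix.trace_zero], ?_⟩
  have h4 : (0 : R) - ∑ i, φ i ((0 : I → S) i) = 0 := by simp
  rw [h4]
  exact RC.zero

/-- the components -/
def XR (φ : I → S →ₗ[ℂ] R) (L : Submodule ℂ R) : Submodule ℂ (I → S) where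
  carrier := {ξ | ∃ X ∈ L, DecR φ X ξ}
  zero_mem' := ⟨0, L.zero_mem, DecR.zero⟩
  add_mem' := fun ⟨X, h1, h2⟩ ⟨Y, h3, h4⟩ => ⟨X + Y, L.add_mem h1 h3, h2.add h4⟩
  smul_mem' := fun c _ ⟨X, h1, h2⟩ => ⟨c • X, L.smul_mem c h1, h2.smul c⟩

end basic

namespace Col

variable {φ : I → S →ₗ[ℂ] R} {M : Submodule ℂ R} (h : Col φ M)
include h

theorem U00_ne (i : I) : φ i (U 0 0) ≠ 0 := by
  intro h1
  apply h.one i
  have h2 : φ i (U 1 1) = 0 := by
    have h3 : U 1 1 = U 1 0 * (U 0 0 * U 0 1) := by rw [U_mul, if_pos rfl, U_mul, if_pos rfl]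
    rw [h3, h.mul, h.mul, h1, zero_mul, mul_zero]
  rw [← U_one, map_add, h1, h2, add_zero]

theorem inj {i : I} {a : S} (ha : φ i a = 0) : a = 0 := by
  by_contra hne
  obtain ⟨r, s, hrs⟩ : ∃ r s, a r s ≠ 0 := by
    by_contra hcon
    push Not at hcon
    exact hne (Matrix.ext fun r s => hcon r s)
  have h1 : U 0 r * a * U s 0 = a r s • U 0 0 := by
    ext i j
    simp only [U, Matrix.mul_apply, Matrix.single, Matrix.of_apply, Matrix.smul_apply, smul_eq_mul,
      Fin.sum_univ_two]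
    fin_cases i <;> fin_cases j <;> fin_cases r <;> fin_cases s <;> simp
  have h2 : φ i (U 0 r * a * U s 0) = 0 := by rw [h.mul, h.mul, ha, mul_zero, zero_mul]
  rw [h1, map_smul] at h2
  exact h.U00_ne i ((smul_eq_zero.1 h2).resolve_left hrs)

/-- It is enough to check traceless matrices. -/
theorem comm_all {z : R} {i : I} (h1 : ∀ x : S, x.trace = 0 → z * φ i x = φ i x * z) (a : S) :
    z * φ i a = φ i a * z := by
  have h2 : z * φ i 1 = φ i 1 * z := by
    have h3 : (1 : S) = E * F + F * E := by rw [EF_eq, FE_eq, U_one]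
    rw [h3, map_add, h.mul, h.mul, mul_add, add_mul, ← mul_assoc, ← mul_assoc,
      h1 E (trace_mk _ _ _), h1 F (trace_mk _ _ _), mul_assoc, mul_assoc, h1 E (trace_mk _ _ _),
      h1 F (trace_mk _ _ _)]
    simp only [mul_assoc]
  have h3 : a = (a - (a.trace / 2) • (1 : S)) + (a.trace / 2) • (1 : S) := by abel
  have h4 : (a - (a.trace / 2) • (1 : S)).trace = 0 := by
    rw [Matrix.trace_sub, Matrix.trace_smul, Matrix.trace_one, Fintype.card_fin, smul_eq_mul]
    push_cast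
    ring
  rw [h3, map_add, mul_add, add_mul, h1 _ h4, map_smul, mul_smul_comm, smul_mul_assoc, h2]

theorem sum_mem {ξ : I → S} (hξ : ∀ i, (ξ i).trace = 0) : ∑ i, φ i (ξ i) ∈ M :=
  M.sum_mem fun i _ => h.mem i _ (hξ i)

theorem br_sum (ξ η : I → S) : (∑ i, φ i (ξ i)) * (∑ i, φ i (η i)) -
    (∑ i, φ i (η i)) * (∑ i, φ i (ξ i)) = ∑ i, φ i (ξ i * η i - η i * ξ i) := by
  rw [Finset.sum_mul_sum, Finset.sum_mul_sum, Finset.sum_comm, ← Finset.sum_sub_distrib]
  refine Finset.sum_congr rfl fun i _ => ?_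
  rw [← Finset.sum_sub_distrib, Finset.sum_eq_single i]
  · rw [map_sub, h.mul, h.mul]
  · intro k _ hk
    rw [h.comm k i hk, sub_self]
  · intro h4
    exact absurd (Finset.mem_univ _) h4

/-- The commutator of elements. -/
theorem dec_br {X Y : R} {ξ η : I → S} (h1 : DecR φ X ξ) (h2 : DecR φ Y η) :
    DecR φ (X * Y - Y * X) (fun i => ξ i * η i - η i * ξ i) := by
  refine ⟨fun i => trace_br _ _, ?_⟩
  obtain ⟨P, hP⟩ : ∃ P, P = ∑ i, φ i (ξ i) := ⟨_, rfl⟩
  obtain ⟨Q, hQ⟩ : ∃ Q, Q = ∑ i, φ i (η i) := ⟨_, rfl⟩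
  obtain ⟨z, hz⟩ : ∃ z, z = X - P := ⟨_, rfl⟩
  obtain ⟨w, hw⟩ : ∃ w, w = Y - Q := ⟨_, rfl⟩
  have hzc : RC φ z := by rw [hz, hP]; exact h1.2
  have hwc : RC φ w := by rw [hw, hQ]; exact h2.2
  have e1 : z * Q = Q * z := by rw [hQ]; exact hzc.sum η
  have e3 : w * P = P * w := by rw [hP]; exact hwc.sum ξ
  have hXe : X = P + z := by rw [hz]; abel
  have hYe : Y = Q + w := by rw [hw]; abel
  have h3 : X * Y - Y * X - ∑ i, φ i (ξ i * η i - η i * ξ i) = z * w - w * z := by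
    rw [← h.br_sum, ← hP, ← hQ, hXe, hYe, add_mul, mul_add, mul_add, add_mul, mul_add, mul_add, e1,
      e3]
    abel
  rw [h3]
  exact (hzc.mul hwc).sub (hwc.mul hzc)

theorem eq_zero_of_comm {a : S} (ha : a.trace = 0) {i : I}
    (h1 : ∀ x : S, x.trace = 0 → φ i a * φ i x = φ i x * φ i a) : a = 0 := by
  have h2 : ∀ x : S, x.trace = 0 → a * x - x * a = 0 := by
    intro x hx
    apply h.inj (i := i)
    rw [map_sub, h.mul, h.mul, h1 x hx, sub_self]
  by_contra hne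
  have e1 := h2 E (trace_mk _ _ _)
  have e2 := h2 F (trace_mk _ _ _)
  obtain ⟨c, hc⟩ : ∃ c : ℂ, E = c • a := centralizer ha hne (trace_mk 0 1 0 : E.trace = 0) e1
  obtain ⟨d, hd⟩ : ∃ d : ℂ, F = d • a := centralizer ha hne (trace_mk 0 0 1 : F.trace = 0) e2
  have hH := br_EF
  rw [hc, hd] at hH
  rw [smul_mul_smul_comm, smul_mul_smul_comm, mul_comm c d, sub_self] at hH
  exact H_ne hH.symm

/-- The commutator with an element of a colour. -/
theorem br_phi {X : R} {ξ : I → S} (h1 : DecR φ X ξ) (i : I) (a : S) :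
    X * φ i a - φ i a * X = φ i (ξ i * a - a * ξ i) := by
  have e2 : X = (X - ∑ i, φ i (ξ i)) + ∑ i, φ i (ξ i) := by abel
  have e3 := h1.2 i a
  have e4 : (∑ l, φ l (ξ l)) * φ i a - φ i a * ∑ l, φ l (ξ l) = φ i (ξ i * a - a * ξ i) := by
    rw [Finset.sum_mul, Finset.mul_sum, ← Finset.sum_sub_distrib, Finset.sum_eq_single i]
    · rw [map_sub, h.mul, h.mul]
    · intro k _ hk
      rw [h.comm k i hk, sub_self]
    · intro h4
      exact absurd (Finset.mem_univ _) h4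
  conv_lhs => rw [e2]
  rw [add_mul, mul_add, e3, ← e4]
  abel

/-- The component is zero if and only if the element commutes with the colour. -/
theorem comp_zero {X : R} {ξ : I → S} (h1 : DecR φ X ξ) (i : I) :
    ξ i = 0 ↔ ∀ x : S, x.trace = 0 → X * φ i x = φ i x * X := by
  constructor
  · intro h2 x _
    have h3 := h.br_phi h1 i x
    rw [h2, zero_mul, mul_zero, sub_zero, map_zero] at h3
    exact sub_eq_zero.1 h3
  · intro h2
    refine h.eq_zero_of_comm (h1.1 i) (i := i) fun x hx => ?_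
    have h3 := h.br_phi h1 i x
    rw [h2 x hx, sub_self] at h3
    have h4 := h.inj h3.symm
    rw [← h.mul, ← h.mul, sub_eq_zero.1 h4]

/-- Uniqueness of the components. -/
theorem uniq {X : R} {ξ η : I → S} (h1 : DecR φ X ξ) (h2 : DecR φ X η) : ξ = η := by
  have h3 : DecR φ (X + (-1 : ℂ) • X) (ξ + (-1 : ℂ) • η) := h1.add (h2.smul _)
  have h4 : X + (-1 : ℂ) • X = 0 := by rw [neg_one_smul]; abel
  rw [h4] at h3
  funext i
  have h5 := (h.comp_zero h3 i).2 fun x _ => by rw [zero_mul, mul_zero]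
  rw [Pi.add_apply, Pi.smul_apply, neg_one_smul, ← sub_eq_add_neg] at h5
  exact sub_eq_zero.1 h5

theorem dec_phi (i : I) {x : S} (hx : x.trace = 0) : DecR φ (φ i x) (Pi.single i x) := by
  refine ⟨fun k => ?_, ?_⟩
  · by_cases hk : k = i
    · subst hk
      rw [Pi.single_eq_same, hx]
    · rw [Pi.single_eq_of_ne hk, Matrix.trace_zero]
  · have h1 : ∑ k, φ k (Pi.single (M := fun _ => S) i x k) = φ i x := by
      rw [Finset.sum_eq_single i]
      · rw [Pi.single_eq_same]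
      · intro k _ hk
        rw [Pi.single_eq_of_ne hk, map_zero]
      · intro h4
        exact absurd (Finset.mem_univ _) h4
    rw [h1, sub_self]
    exact RC.zero

section Sub

variable {L D : Submodule ℂ R} (hLM : L ≤ M) (hDL : D ≤ L)
  (hLbr : ∀ X ∈ L, ∀ Y ∈ L, X * Y - Y * X ∈ L)
  (hperf : D ≤ Submodule.span ℂ {Z | ∃ X ∈ D, ∃ Y ∈ D, Z = X * Y - Y * X})
  (hdec : ∀ X ∈ L, ∃ Z ∈ L, ∃ d ∈ D, X = Z + d ∧ ∀ Y ∈ L, Z * Y = Y * Z)
  (hcom : ∀ T : R, (∀ X ∈ L, T * X = X * T) → ∀ X ∈ M, T * X = X * T)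

include hLM hDL hperf in
theorem perfect_or (i : I) : (∀ ξ ∈ XR φ D, ξ i = 0) ∨
    ∀ x : S, x.trace = 0 → ∃ ξ ∈ XR φ D, ξ i = x := by
  have hDM : D ≤ M := hDL.trans hLM
  let P : Submodule ℂ S := Submodule.map (LinearMap.proj i) (XR φ D)
  have hP : ∀ y, y ∈ P ↔ ∃ ξ ∈ XR φ D, ξ i = y := by
    intro y
    simp only [P, Submodule.mem_map, LinearMap.proj_apply]
  have key : ∀ Z ∈ Submodule.span ℂ {Z | ∃ X ∈ D, ∃ Y ∈ D, Z = X * Y - Y * X},
      ∃ ξ, DecR φ Z ξ ∧ ξ i ∈ Submodule.span ℂ {z | ∃ x ∈ P, ∃ y ∈ P, z = x * y - y * x} := by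
    intro Z hZ
    induction hZ using Submodule.span_induction with
    | mem Z hZ =>
      obtain ⟨X, hX, Y, hY, rfl⟩ := hZ
      obtain ⟨ξ, hξ⟩ := h.dec X (hDM hX)
      obtain ⟨η, hη⟩ := h.dec Y (hDM hY)
      exact ⟨_, h.dec_br hξ hη, Submodule.subset_span ⟨ξ i, (hP _).2 ⟨ξ, ⟨X, hX, hξ⟩, rfl⟩, η i,
          (hP _).2 ⟨η, ⟨Y, hY, hη⟩, rfl⟩, rfl⟩⟩
    | zero => exact ⟨0, DecR.zero, Submodule.zero_mem _⟩
    | add a b _ _ ha hb =>
      obtain ⟨ξ, hξ, h1⟩ := ha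
      obtain ⟨η, hη, h2⟩ := hb
      exact ⟨ξ + η, hξ.add hη, Submodule.add_mem _ h1 h2⟩
    | smul c a _ ha =>
      obtain ⟨ξ, hξ, h1⟩ := ha
      exact ⟨c • ξ, hξ.smul c, Submodule.smul_mem _ _ h1⟩
  rcases perfect P (fun x hx => by
      obtain ⟨ξ, ⟨X, _, h2⟩, h3⟩ := (hP x).1 hx
      rw [← h3]
      exact h2.1 i) (fun x hx => by
      obtain ⟨ξ, ⟨X, h1, h2⟩, h3⟩ := (hP x).1 hx
      obtain ⟨η, hη, h4⟩ := key X (hperf h1)
      rw [← h3, h.uniq h2 hη]
      exact h4) with h1 | h1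
  · left
    intro ξ hξ
    have h2 : ξ i ∈ P := (hP _).2 ⟨ξ, hξ, rfl⟩
    rwa [h1, Submodule.mem_bot] at h2
  · right
    intro x hx
    exact (hP x).1 (h1 x hx)

include hLM hDL hLbr hperf hdec hcom in
/-- The projections are surjective. -/
theorem sur (i : I) (x : S) (hx : x.trace = 0) : ∃ ξ ∈ XR φ L, ξ i = x := by
  rcases h.perfect_or hLM hDL hperf i with h1 | h1
  swap
  · obtain ⟨ξ, ⟨X, h2, h3⟩, h4⟩ := h1 x hx
    exact ⟨ξ, ⟨X, hDL h2, h3⟩, h4⟩
  exfalso
  have hab : ∀ ξ ∈ XR φ L, ∀ η ∈ XR φ L, ξ i * η i - η i * ξ i = 0 := by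
    rintro ξ ⟨X, hX, hξ⟩ η ⟨Y, hY, hη⟩
    obtain ⟨Z, hZ, d, hd, hXZ, hZc⟩ := hdec X hX
    obtain ⟨ζ, hζ⟩ := h.dec Z (hLM hZ)
    obtain ⟨δ, hδ⟩ := h.dec d (hLM (hDL hd))
    have h2 : ξ = ζ + δ := h.uniq hξ (hXZ ▸ hζ.add hδ)
    have h3 : ξ i = ζ i := by
      rw [h2, Pi.add_apply, h1 δ ⟨d, hd, hδ⟩, add_zero]
    have h4 := h.dec_br hζ hη
    rw [hZc Y hY, sub_self] at h4
    have h5 := congrFun (h.uniq h4 DecR.zero) i
    rw [h3]
    exact h5
  obtain ⟨a, ha, ha0, hac⟩ : ∃ a : S, a.trace = 0 ∧ a ≠ 0 ∧ ∀ ξ ∈ XR φ L, a * ξ i = ξ i * a := by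
    by_cases hall : ∀ ξ ∈ XR φ L, ξ i = 0
    · refine ⟨E, trace_mk _ _ _, fun h2 => ?_, fun ξ hξ => by rw [hall ξ hξ, mul_zero, zero_mul]⟩
      exact E_ne h2
    · push Not at hall
      obtain ⟨ξ, hξ, hne⟩ := hall
      refine ⟨ξ i, ?_, hne, fun η hη => sub_eq_zero.1 (hab ξ hξ η hη)⟩
      obtain ⟨X, _, h2⟩ := hξ
      exact h2.1 i
  apply ha0
  refine h.eq_zero_of_comm ha (i := i) fun x hx => ?_
  refine hcom (φ i a) (fun X hX => ?_) _ (h.mem i x hx)
  obtain ⟨ξ, hξ⟩ := h.dec X (hLM hX)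
  have h2 := h.br_phi hξ i a
  rw [hac ξ ⟨X, hX, hξ⟩, sub_self, map_zero] at h2
  exact (sub_eq_zero.1 h2).symm

end Sub

end Col

/-! ### Linked colours -/

/-- The colours `i` and `k` are linked by `L`. -/
def Lk (φ : I → S →ₗ[ℂ] R) (L : Submodule ℂ R) (i k : I) : Prop :=
  ∃ Θ : S →ₗ[ℂ] S, (∀ a b, Θ (a * b) = Θ a * Θ b) ∧ Θ 1 = 1 ∧ ∀ ξ ∈ XR φ L, ξ i = Θ (ξ k)

theorem theta_inj {Θ : S →ₗ[ℂ] S} (h1 : ∀ a b, Θ (a * b) = Θ a * Θ b) (h2 : Θ 1 = 1) {a : S}
    (ha : Θ a = 0) : a = 0 := by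
  have h : Col (fun _ : Unit => Θ) (⊤ : Submodule ℂ S) :=
    { mul := fun _ => h1
      comm := fun i k hik => absurd rfl hik
      one := fun _ => by rw [h2]; exact one_ne_zero
      mem := fun _ _ _ => Submodule.mem_top
      dec := fun X _ => by
        have hbij : Function.Surjective Θ := by
          rw [← LinearMap.injective_iff_surjective, ← LinearMap.ker_eq_bot]
          rw [LinearMap.ker_eq_bot']
          intro m hm
          by_contra hne
          obtain ⟨r, s, hrs⟩ : ∃ r s, m r s ≠ 0 := by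
            by_contra hcon
            push Not at hcon
            exact hne (Matrix.ext fun r s => hcon r s)
          have e1 : ∀ t : Fin 2, U t r * m * U s t = m r s • U t t := by
            intro t
            ext i j
            simp only [U, Matrix.mul_apply, Matrix.single, Matrix.of_apply, Matrix.smul_apply,
              smul_eq_mul, Fin.sum_univ_two]
            fin_cases i <;> fin_cases j <;> fin_cases r <;> fin_cases s <;> fin_cases t <;> simp
          have e2 : ∀ t, Θ (U t t) = 0 := by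
            intro t
            have e3 : Θ (U t r * m * U s t) = 0 := by rw [h1, h1, hm, mul_zero, zero_mul]
            rw [e1, map_smul] at e3
            exact (smul_eq_zero.1 e3).resolve_left hrs
          have e4 : Θ 1 = 0 := by rw [← U_one, map_add, e2, e2, add_zero]
          rw [h2] at e4
          exact one_ne_zero e4
        obtain ⟨y, hy⟩ := hbij X
        refine ⟨fun _ => y - (y.trace / 2) • (1 : S), fun _ => ?_, ?_⟩
        · rw [Matrix.trace_sub, Matrix.trace_smul, Matrix.trace_one, Fintype.card_fin, smul_eq_mul]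
          push_cast
          ring
        · intro _ a
          rw [Finset.univ_unique, Finset.sum_singleton, map_sub, hy, map_smul, h2, sub_sub_cancel,
            smul_mul_assoc, mul_smul_comm, one_mul, mul_one] }
  exact h.inj (i := ()) ha

end Pool.Agent.D0H89.TL
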