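import Pool.Agent.D0H89.TL.Lnk

set_option autoImplicit false
set_option linter.unusedSectionVars false
set_option linter.unusedSimpArgs false
set_option linter.unusedVariables false

/-!
# Linked colours, automorphisms and real structures
-/

open Matrix

noncomputable section

namespace Pool.Agent.D0H89.TL

open Pool.Agent.Y102.TA

variable {R : Type} [Ring R] [Algebra ℂ R] {I : Type} [Fintype I] [DecidableEq I]

/-- The map `τ` maps the colour `i` to the colour `k`. -/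
def Mp (φ : I → S →ₗ[ℂ] R) (τ : R → R) (i k : I) : Prop :=
  ∀ x : S, x.trace = 0 → ∃ y : S, y.trace = 0 ∧ τ (φ i x) = φ k y

/-- Elements which commute with a nonzero element commute. -/
theorem comm_of {y1 y2 y3 : S} (h1 : y1.trace = 0) (h2 : y2.trace = 0) (h3 : y3.trace = 0)
    (h0 : y3 ≠ 0) (h4 : y3 * y1 = y1 * y3) (h5 : y3 * y2 = y2 * y3) : y1 * y2 = y2 * y1 := by
  obtain ⟨c, rfl⟩ := centralizer h3 h0 h1 (sub_eq_zero.2 h4)
  obtain ⟨d, rfl⟩ := centralizer h3 h0 h2 (sub_eq_zero.2 h5)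
  rw [smul_mul_smul_comm, smul_mul_smul_comm, mul_comm c d]

namespace Col

variable {φ : I → S →ₗ[ℂ] R} {M : Submodule ℂ R} (h : Col φ M)
include h

theorem HE_ne (i : I) : φ i H * φ i E ≠ φ i E * φ i H := by
  intro h1
  have h2 : φ i (H * E - E * H) = 0 := by rw [map_sub, h.mul, h.mul, h1, sub_self]
  rw [br_HE] at h2
  have h3 := h.inj h2
  exact E_ne ((smul_eq_zero.1 h3).resolve_left two_ne_zero)

/-- The image of a colour under an automorphism determines the colour. -/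
theorem mp_inj (τ : R ≃+* R) {i l k : I} (h1 : Mp φ τ i k) (h2 : Mp φ τ l k) : i = l := by
  by_contra hne
  obtain ⟨y1, t1, e1⟩ := h1 H (trace_mk _ _ _)
  obtain ⟨y2, t2, e2⟩ := h1 E (trace_mk _ _ _)
  obtain ⟨y3, t3, e3⟩ := h2 E (trace_mk _ _ _)
  have h0 : y3 ≠ 0 := by
    intro h4
    rw [h4, map_zero] at e3
    exact E_ne (h.inj ((map_eq_zero_iff τ τ.injective).1 e3))
  have h4 : ∀ {x : S} {y : S}, τ (φ i x) = φ k y → y3 * y = y * y3 := by
    intro x y e
    have h5 := congrArg τ (h.comm l i (Ne.symm hne) E x)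
    rw [map_mul, map_mul, e, e3, ← h.mul, ← h.mul] at h5
    rw [← sub_eq_zero]
    apply h.inj (i := k)
    rw [map_sub, h5, sub_self]
  have h5 := comm_of t1 t2 t3 h0 (h4 e1) (h4 e2)
  apply h.HE_ne i
  apply τ.injective
  rw [map_mul, map_mul, e1, e2, ← h.mul, ← h.mul, h5]

variable {L : Submodule ℂ R} (hLM : L ≤ M)
  (hLbr : ∀ X ∈ L, ∀ Y ∈ L, X * Y - Y * X ∈ L)
  (hsur : ∀ i, ∀ x : S, x.trace = 0 → ∃ ξ ∈ XR φ L, ξ i = x)

include hLM hLbr hsur in
/-- The linking relation is stable under automorphisms. -/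
theorem lk_gal (τ : R ≃+* R) (hτ : ∀ X ∈ L, τ.symm X ∈ L) {i k i' k' : I} (hi : Mp φ τ i i')
    (hk : Mp φ τ k k') (hik : Lk φ L i k) : Lk φ L i' k' := by
  rw [h.lk_iff hLM hLbr hsur] at hik ⊢
  intro X hX hX'
  have h1 := hik (τ.symm X) (hτ X hX) (fun x hx => by
    obtain ⟨y, hy, e⟩ := hk x hx
    apply τ.injective
    rw [map_mul, map_mul, e, τ.apply_symm_apply, hX' y hy])
  obtain ⟨ξ, hξ⟩ := h.dec X (hLM hX)
  rw [← h.comp_zero hξ]
  by_contra h0
  have h2 : ∀ x : S, x.trace = 0 → ∃ y : S, y.trace = 0 ∧ τ (φ i x) = φ i' y ∧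
      ξ i' * y = y * ξ i' := by
    intro x hx
    obtain ⟨y, hy, e⟩ := hi x hx
    refine ⟨y, hy, e, ?_⟩
    have h3 := congrArg τ (h1 x hx)
    rw [map_mul, map_mul, τ.apply_symm_apply, e] at h3
    have h4 := h.br_phi hξ i' y
    rw [h3, sub_self] at h4
    exact sub_eq_zero.1 (h.inj h4.symm)
  obtain ⟨y1, t1, e1, f1⟩ := h2 H (trace_mk _ _ _)
  obtain ⟨y2, t2, e2, f2⟩ := h2 E (trace_mk _ _ _)
  have h5 := comm_of t1 t2 (hξ.1 i') h0 f1 f2
  apply h.HE_ne i
  apply τ.injective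
  rw [map_mul, map_mul, e1, e2, ← h.mul, ← h.mul, h5]

/-- The trace of the product of elements of different colours. -/
theorem tr_zero {tr : R →ₗ[ℂ] ℂ} (htr : ∀ x y, tr (x * y) = tr (y * x)) {i k : I} (hik : i ≠ k)
    (y : S) : tr (φ i E * φ k y) = 0 := by
  have h1 : (2 : ℂ) • φ i E = φ i H * φ i E - φ i E * φ i H := by
    rw [← h.mul, ← h.mul, ← map_sub, br_HE, map_smul]
  have h2 : (2 : ℂ) * tr (φ i E * φ k y) = 0 := by
    have h3 : (2 : ℂ) * tr (φ i E * φ k y) = tr (((2 : ℂ) • φ i E) * φ k y) := by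
      rw [smul_mul_assoc, map_smul, smul_eq_mul]
    rw [h3, h1, sub_mul, map_sub]
    have h4 : tr (φ i E * φ i H * φ k y) = tr (φ i H * φ i E * φ k y) := by
      rw [mul_assoc, htr, mul_assoc, ← h.comm i k hik E y, ← mul_assoc]
    rw [h4, sub_self]
  exact (mul_eq_zero.1 h2).resolve_left two_ne_zero

section real

variable {c : R ≃+* R} (hc2 : ∀ x, c (c x) = x)
  (hcs : ∀ (a : ℂ) x, c (a • x) = (starRingEnd ℂ a) • c x)
  {tr : R →ₗ[ℂ] ℂ} (htr : ∀ x y, tr (x * y) = tr (y * x))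
  (htc : ∀ x, tr (c x) = starRingEnd ℂ (tr x))
  {J : R} (hJM : J ∈ M) (hJJ : J * J = -1) (hcJ : c J = J)
  (hcM : ∀ X ∈ M, c X ∈ M)
  (pos : ∀ Y ∈ M, c Y = Y → Y ≠ 0 → 0 < (tr (Y * J * Y * J)).re)
  (hgal : ∀ i, ∃ k, Mp φ c i k)

include hJM hJJ in
theorem JyJ (k : I) {y : S} (hy : y.trace = 0) : ∃ y' : S, y'.trace = 0 ∧
    J * φ k y * J = φ k y' := by
  obtain ⟨j, hj⟩ := h.dec J hJM
  have h1 := h.br_phi hj k y
  have h2 := h.br_phi hj k (j k * y - y * j k)
  refine ⟨(-(1 / 2 : ℂ)) • (j k * (j k * y - y * j k) - (j k * y - y * j k) * j k) - y, ?_, ?_⟩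
  · rw [Matrix.trace_sub, Matrix.trace_smul, trace_br, smul_zero, hy, sub_zero]
  · rw [map_sub, map_smul, ← h2, ← h1]
    have e1 : J * (J * φ k y) = -φ k y := by rw [← mul_assoc, hJJ, neg_one_mul]
    have e2 : φ k y * J * J = -φ k y := by rw [mul_assoc, hJJ, mul_neg_one]
    have e3 : J * (J * φ k y - φ k y * J) - (J * φ k y - φ k y * J) * J =
        (-2 : ℂ) • (φ k y) + (-2 : ℂ) • (J * φ k y * J) := by
      rw [mul_sub, sub_mul, e1, e2, ← mul_assoc]
      module
    rw [e3]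
    module

include hc2 hcs htr htc hJM hJJ hcJ hcM pos hgal in
/-- The colours are stable under the complex conjugation. -/
theorem mp_conj (i : I) : Mp φ c i i := by
  obtain ⟨k, hk⟩ := hgal i
  by_cases hik : i = k
  · subst hik
    exact hk
  exfalso
  obtain ⟨y, hy, e⟩ := hk E (trace_mk _ _ _)
  obtain ⟨Y, hY⟩ : ∃ Y, Y = φ i E := ⟨_, rfl⟩
  have hYM : Y ∈ M := hY ▸ h.mem i E (trace_mk _ _ _)
  have hcY : c Y = φ k y := by rw [hY, e]
  obtain ⟨t, ht⟩ : ∃ t, t = tr (Y * J * Y * J) := ⟨_, rfl⟩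
  have cross : tr (Y * J * c Y * J) = 0 := by
    obtain ⟨y', -, e'⟩ := h.JyJ hJM hJJ k hy
    have e1 : Y * J * c Y * J = φ i E * φ k y' := by
      rw [hcY, ← e', hY]
      simp only [mul_assoc]
    rw [e1, h.tr_zero htr hik]
  have cross' : tr (c Y * J * Y * J) = 0 := by
    rw [mul_assoc (c Y * J), htr, ← cross]
    simp only [mul_assoc]
  have hcc : tr (c Y * J * c Y * J) = starRingEnd ℂ t := by
    rw [ht, ← htc]
    simp only [map_mul, hcJ]
  have key : ∀ a : ℂ, a ≠ 0 → 0 < (a * a * t + starRingEnd ℂ (a * a * t)).re := by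
    intro a ha
    have h1 : c (a • Y + starRingEnd ℂ a • c Y) = a • Y + starRingEnd ℂ a • c Y := by
      rw [map_add, hcs, hcs, hc2, Complex.conj_conj, add_comm]
    have h2 : a • Y + starRingEnd ℂ a • c Y ≠ 0 := by
      intro h3
      have h4 : ∀ x : S, (a • Y + starRingEnd ℂ a • c Y) * φ i x -
          φ i x * (a • Y + starRingEnd ℂ a • c Y) = a • (Y * φ i x - φ i x * Y) := by
        intro x
        have h5 : c Y * φ i x = φ i x * c Y := by rw [hcY, h.comm k i (Ne.symm hik)]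
        rw [add_mul, mul_add, smul_mul_assoc, smul_mul_assoc, mul_smul_comm, mul_smul_comm, h5]
        module
      have h5 := h4 H
      rw [h3, zero_mul, mul_zero, sub_zero] at h5
      have h6 := (smul_eq_zero.1 h5.symm).resolve_left ha
      rw [hY, sub_eq_zero] at h6
      exact h.HE_ne i h6.symm
    have h3 := pos _ (M.add_mem (M.smul_mem _ hYM) (M.smul_mem _ (hcM _ hYM))) h1 h2
    have h4 : tr ((a • Y + starRingEnd ℂ a • c Y) * J * (a • Y + starRingEnd ℂ a • c Y) * J) =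
        a * a * t + starRingEnd ℂ (a * a * t) := by
      have e1 : (a • Y + starRingEnd ℂ a • c Y) * J * (a • Y + starRingEnd ℂ a • c Y) * J =
          (a * a) • (Y * J * Y * J) + (a * starRingEnd ℂ a) • (Y * J * c Y * J) +
          (a * starRingEnd ℂ a) • (c Y * J * Y * J) +
          (starRingEnd ℂ a * starRingEnd ℂ a) • (c Y * J * c Y * J) := by
        simp only [add_mul, mul_add, smul_mul_assoc, mul_smul_comm]
        module
      rw [e1, map_add, map_add, map_add, map_smul, map_smul, map_smul, map_smul, cross, cross', hcc,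
        ← ht, smul_zero, add_zero, add_zero, smul_eq_mul, smul_eq_mul, map_mul, map_mul]
    rwa [h4] at h3
  have k1 := key 1 one_ne_zero
  have k2 := key Complex.I Complex.I_ne_zero
  rw [one_mul, one_mul, Complex.add_re, Complex.conj_re] at k1
  rw [Complex.I_mul_I, neg_one_mul, Complex.add_re, Complex.conj_re, Complex.neg_re] at k2
  linarith

variable (trpos : ∀ i, ∃ t : ℝ, 0 < t ∧ tr (φ i 1) = t)

include hc2 hcs htr htc hJM hJJ hcJ hcM pos hgal trpos in
/-- A colour which is linked with a compact colour is compact. -/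
theorem compact_of_lk {L : Submodule ℂ R} (hLM : L ≤ M) (hcL : ∀ X ∈ L, c X ∈ L)
    (hsur : ∀ i, ∀ x : S, x.trace = 0 → ∃ ξ ∈ XR φ L, ξ i = x) {i k : I} (hik : Lk φ L i k)
    (hi : ∀ x, φ i x * J = J * φ i x) (x : S) : φ k x * J = J * φ k x := by
  have hmc : ∀ l, Mp φ c l l := h.mp_conj hc2 hcs htr htc hJM hJJ hcJ hcM pos hgal
  obtain ⟨Θ, h1, h2, h3⟩ := hik
  -- the components of the conjugate
  have hdc : ∀ X ξ, DecR φ X ξ → ∃ η, DecR φ (c X) η ∧ ∀ l, φ l (η l) = c (φ l (ξ l)) := by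
    intro X ξ hξ
    choose η hη1 hη2 using fun l => hmc l (ξ l) (hξ.1 l)
    refine ⟨η, ⟨hη1, fun l => h.comm_all fun a ha => ?_⟩, fun l => (hη2 l).symm⟩
    obtain ⟨a', ha', e⟩ := hmc l a ha
    have e1 : φ l a = c (φ l a') := by rw [← e, hc2]
    have e2 : c X - ∑ l, φ l (η l) = c (X - ∑ l, φ l (ξ l)) := by
      rw [map_sub, map_sum]
      congr 1
      exact Finset.sum_congr rfl fun l _ => (hη2 l).symm
    rw [e1, e2, ← map_mul, ← map_mul, hξ.2 l a']
  by_contra hx
  -- a real element of the colour `k`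
  obtain ⟨y, hy, hyc, hyJ⟩ : ∃ y : S, y.trace = 0 ∧ c (φ k y) = φ k y ∧
      J * φ k y - φ k y * J ≠ 0 := by
    by_contra hcon
    push Not at hcon
    apply hx
    refine (h.comm_all (z := J) (i := k) (fun a ha => ?_) x).symm
    obtain ⟨b, hb, e⟩ := hmc k a ha
    have g1 := hcon (a + b) (by rw [Matrix.trace_add, ha, hb, add_zero]) (by
      rw [map_add, map_add, e, ← e, hc2, add_comm])
    have g2 := hcon (Complex.I • a - Complex.I • b)
      (by rw [Matrix.trace_sub, Matrix.trace_smul, Matrix.trace_smul, ha, hb, smul_zero, sub_zero])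
      (by
        rw [map_sub, map_smul, map_smul, map_sub, hcs, hcs, e, ← e, hc2, Complex.conj_I]
        module)
    have g3 : J * φ k a - φ k a * J = (1 / 2 : ℂ) • (J * φ k (a + b) - φ k (a + b) * J) +
        (-(Complex.I / 2) : ℂ) • (J * φ k (Complex.I • a - Complex.I • b) -
          φ k (Complex.I • a - Complex.I • b) * J) := by
      simp only [map_add, map_sub, map_smul, mul_add, add_mul, mul_sub, sub_mul, mul_smul_comm,
        smul_mul_assoc]
      have g4 : (-(Complex.I / 2) : ℂ) • (Complex.I • (J * φ k a) - Complex.I • (J * φ k b) -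
          (Complex.I • (φ k a * J) - Complex.I • (φ k b * J))) =
          (1 / 2 : ℂ) • (J * φ k a - J * φ k b - (φ k a * J - φ k b * J)) := by
        have g5 : (1 / 2 : ℂ) = -(Complex.I / 2) * Complex.I := by
          rw [neg_mul, div_mul_eq_mul_div, Complex.I_mul_I]
          norm_num
        rw [g5, mul_smul]
        simp only [smul_sub]
      rw [g4]
      module
    rw [g1, g2, smul_zero, smul_zero, add_zero, sub_eq_zero] at g3
    exact g3
  obtain ⟨j, hj⟩ := h.dec J hJM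
  obtain ⟨z, hz⟩ : ∃ z, z = j k * y - y * j k := ⟨_, rfl⟩
  have hzt : z.trace = 0 := by rw [hz, trace_br]
  obtain ⟨Z, hZ⟩ : ∃ Z, Z = J * φ k y - φ k y * J := ⟨_, rfl⟩
  have hZz : Z = φ k z := by rw [hZ, hz, h.br_phi hj k y]
  have hZ0 : Z ≠ 0 := hZ ▸ hyJ
  have hcZ : c Z = Z := by rw [hZ, map_sub, map_mul, map_mul, hcJ, hyc]
  have hZM : Z ∈ M := by rw [hZz]; exact h.mem k z hzt
  have hZJ : J * Z = -(Z * J) := by
    rw [hZ, mul_sub, sub_mul, ← mul_assoc, hJJ, mul_assoc (φ k y) J J, hJJ, neg_one_mul, mul_neg_one,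
      ← mul_assoc]
    abel
  obtain ⟨δ, hδ⟩ : ∃ δ : ℂ, z * z = δ • (1 : S) := by
    refine ⟨(z * z).trace / 2, ?_⟩
    have e1 := anti hzt hzt
    calc z * z = (1 / 2 : ℂ) • (z * z + z * z) := by module
      _ = ((z * z).trace / 2) • (1 : S) := by
        rw [e1, smul_smul]
        congr 1
        ring
  obtain ⟨tk, htk, htk'⟩ := trpos k
  obtain ⟨ti, hti, hti'⟩ := trpos i
  have hδpos : 0 < δ.re := by
    have e1 := pos Z hZM hcZ hZ0
    have e2 : Z * J * Z * J = Z * Z := by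
      rw [mul_assoc Z J Z, hZJ, mul_neg, neg_mul, mul_assoc Z (Z * J) J, mul_assoc Z J J, hJJ,
        mul_neg_one, mul_neg, neg_neg]
    rw [e2, hZz, ← h.mul, hδ, map_smul, map_smul, htk', smul_eq_mul, Complex.re_mul_ofReal] at e1
    exact (mul_pos_iff_of_pos_right htk).1 e1
  -- an element of `L`
  obtain ⟨ξ, ⟨X, hX, hξ⟩, hξk⟩ := hsur k z hzt
  obtain ⟨η, hη, hη'⟩ := hdc X ξ hξ
  have hXX : X + c X ∈ L := L.add_mem hX (hcL X hX)
  have hdd : DecR φ (X + c X) (ξ + η) := hξ.add hη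
  have hk2 : (ξ + η) k = (2 : ℂ) • z := by
    rw [← sub_eq_zero]
    apply h.inj (i := k)
    rw [map_sub, Pi.add_apply, map_add, hη' k, hξk, ← hZz, hcZ, map_smul, ← hZz]
    module
  have hi2 : (ξ + η) i = Θ ((2 : ℂ) • z) := by rw [← hk2]; exact h3 _ ⟨_, hXX, hdd⟩
  obtain ⟨W, hW⟩ : ∃ W, W = φ i ((ξ + η) i) := ⟨_, rfl⟩
  have hWc : c W = W := by
    rw [hW, Pi.add_apply, map_add, map_add, hη' i, hc2, add_comm]
  have hWM : W ∈ M := by rw [hW]; exact h.mem i _ (hdd.1 i)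
  have hWW : W * W = (4 * δ) • φ i 1 := by
    rw [hW, hi2, ← h.mul, ← h1, smul_mul_smul_comm, hδ, smul_smul, map_smul, map_smul, h2]
    norm_num
  have hWJ : W * J * W * J = -(W * W) := by
    have e1 : W * J = J * W := by rw [hW]; exact hi _
    rw [mul_assoc W J W, ← e1, ← mul_assoc, mul_assoc (W * W) J J, hJJ, mul_neg_one]
  by_cases hW0 : W = 0
  · rw [hW0, zero_mul] at hWW
    have e1 := (smul_eq_zero.1 hWW.symm).resolve_right (h.one i)
    have e2 : δ = 0 := (mul_eq_zero.1 e1).resolve_left (by norm_num)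
    rw [e2, Complex.zero_re] at hδpos
    exact lt_irrefl _ hδpos
  · have e1 := pos W hWM hWc hW0
    rw [hWJ, map_neg, hWW, map_smul, hti', smul_eq_mul, Complex.neg_re, Complex.re_mul_ofReal] at e1
    have e2 : (4 * δ).re = 4 * δ.re := by simp
    rw [e2] at e1
    have e3 : 0 < 4 * δ.re * ti := by positivity
    linarith

end real

end Col

end Pool.Agent.D0H89.TL
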