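import Pool.Agent.D0H89.TL.Col

set_option autoImplicit false
set_option linter.unusedSectionVars false
set_option linter.unusedSimpArgs false
set_option linter.unusedVariables false

/-!
# Linked colours
-/

open Matrix

noncomputable section

namespace Pool.Agent.D0H89.TL

open Pool.Agent.Y102.TA

variable {R : Type} [Ring R] [Algebra ℂ R] {I : Type} [Fintype I] [DecidableEq I]

/-- Multiplicative maps of matrices of size two are conjugations. -/
theorem inner {Θ : S →ₗ[ℂ] S} (h1 : ∀ a b, Θ (a * b) = Θ a * Θ b) (h2 : Θ 1 = 1) :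
    ∃ u v : S, u * v = 1 ∧ v * u = 1 ∧ ∀ x, Θ x = u * x * v := by
  obtain ⟨N, hN0, hN, -, -, -⟩ := inter (R := S) (p := LinearMap.id) (q := Θ) (fun _ _ => rfl) h1
    (N := 1) one_ne_zero (by rw [h2, one_mul]) (by rw [LinearMap.id_apply, mul_one])
  have hbij : Function.Surjective Θ := by
    rw [← LinearMap.injective_iff_surjective, ← LinearMap.ker_eq_bot, LinearMap.ker_eq_bot']
    exact fun m hm => theta_inj h1 h2 hm
  have hdet : N.det ≠ 0 := by
    intro h0
    have h3 : N.adjugate * N = 0 := by rw [Matrix.adjugate_mul, h0, zero_smul]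
    have h4 : ∀ y : S, N.adjugate * y * N = 0 := by
      intro y
      obtain ⟨x, rfl⟩ := hbij y
      rw [mul_assoc, hN, LinearMap.id_apply, ← mul_assoc, h3, zero_mul]
    apply hN0
    by_contra hne
    obtain ⟨s, b, hsb⟩ : ∃ s b, N s b ≠ 0 := by
      by_contra hcon
      push Not at hcon
      exact hne (Matrix.ext fun r s => hcon r s)
    have h5 : ∀ a r, N.adjugate a r = 0 := by
      intro a r
      have h6 := congrFun (congrFun (h4 (U r s)) a) b
      have h7 : (N.adjugate * U r s * N) a b = N.adjugate a r * N s b := by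
        simp only [U, Matrix.mul_apply, Matrix.single, Matrix.of_apply, Fin.sum_univ_two]
        fin_cases r <;> fin_cases s <;> simp
      rw [h7] at h6
      exact (mul_eq_zero.1 h6).resolve_right hsb
    apply hne
    have e1 := h5 0 0
    have e2 := h5 0 1
    have e3 := h5 1 0
    have e4 := h5 1 1
    rw [Matrix.adjugate_fin_two] at e1 e2 e3 e4
    simp at e1 e2 e3 e4
    ext i j
    fin_cases i <;> fin_cases j <;> simp [e1, e2, e3, e4]
  have hu : IsUnit N.det := isUnit_iff_ne_zero.2 hdet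
  refine ⟨N, N⁻¹, Matrix.mul_nonsing_inv N hu, Matrix.nonsing_inv_mul N hu, fun x => ?_⟩
  have h3 := hN x
  rw [LinearMap.id_apply] at h3
  rw [← h3, mul_assoc, Matrix.mul_nonsing_inv N hu, mul_one]

namespace Col

variable {φ : I → S →ₗ[ℂ] R} {M : Submodule ℂ R} (h : Col φ M)
include h

/-- The conjugation of all the colours. -/
theorem exists_conj {u v : I → S} (huv : ∀ i, u i * v i = 1) (hvu : ∀ i, v i * u i = 1)
    (s : Finset I) : ∃ g g' : R, g * g' = 1 ∧ g' * g = 1 ∧
      (∀ i ∈ s, ∀ x, g * φ i x * g' = φ i (u i * x * v i)) ∧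
      (∀ i, i ∉ s → ∀ x, g * φ i x * g' = φ i x) ∧ ∀ z, RC φ z → g * z * g' = z := by
  induction s using Finset.induction_on with
  | empty =>
    exact ⟨1, 1, one_mul 1, one_mul 1, fun i hi => absurd hi (Finset.notMem_empty i),
      fun i _ x => by rw [one_mul, mul_one], fun z _ => by rw [one_mul, mul_one]⟩
  | insert j s hj ih =>
    obtain ⟨g, g', h1, h2, h3, h4, h5⟩ := ih
    obtain ⟨a, ha⟩ : ∃ a, a = 1 - φ j 1 + φ j (u j) := ⟨_, rfl⟩
    obtain ⟨b, hb⟩ : ∃ b, b = 1 - φ j 1 + φ j (v j) := ⟨_, rfl⟩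
    have e1 : ∀ x y, φ j x * φ j y = φ j (x * y) := fun x y => (h.mul j x y).symm
    have hab : a * b = 1 := by
      rw [ha, hb]
      simp only [add_mul, mul_add, sub_mul, mul_sub, one_mul, mul_one, e1, huv]
      abel
    have hba : b * a = 1 := by
      rw [ha, hb]
      simp only [add_mul, mul_add, sub_mul, mul_sub, one_mul, mul_one, e1, hvu]
      abel
    have hac : ∀ z : R, (∀ x, z * φ j x = φ j x * z) → a * z * b = z := by
      intro z hz
      have h6 : a * z = z * a := by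
        rw [ha, add_mul, mul_add, sub_mul, mul_sub, hz, hz, one_mul, mul_one]
      rw [h6, mul_assoc, hab, mul_one]
    have haj : ∀ x, a * φ j x * b = φ j (u j * x * v j) := by
      intro x
      rw [ha, hb]
      simp only [add_mul, mul_add, sub_mul, mul_sub, one_mul, mul_one, e1]
      abel
    refine ⟨a * g, g' * b, ?_, ?_, fun i hi x => ?_, fun i hi x => ?_, fun z hz => ?_⟩
    · calc a * g * (g' * b) = a * (g * g') * b := by simp only [mul_assoc]
        _ = 1 := by rw [h1, mul_one, hab]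
    · calc g' * b * (a * g) = g' * (b * a) * g := by simp only [mul_assoc]
        _ = 1 := by rw [hba, mul_one, h2]
    · have e2 : a * g * φ i x * (g' * b) = a * (g * φ i x * g') * b := by simp only [mul_assoc]
      rw [e2]
      rcases Finset.mem_insert.1 hi with rfl | hi
      · rw [h4 i hj, haj]
      · rw [h3 i hi]
        have hne : i ≠ j := fun e => hj (e ▸ hi)
        exact hac _ fun y => h.comm i j hne _ _
    · have e2 : a * g * φ i x * (g' * b) = a * (g * φ i x * g') * b := by simp only [mul_assoc]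
      have hne : i ≠ j := fun e => hi (e ▸ Finset.mem_insert_self _ _)
      rw [e2, h4 i fun h6 => hi (Finset.mem_insert_of_mem h6)]
      exact hac _ fun y => h.comm i j hne _ _
    · have e2 : a * g * z * (g' * b) = a * (g * z * g') * b := by simp only [mul_assoc]
      rw [e2, h5 z hz]
      exact hac _ fun y => hz j y

variable {L : Submodule ℂ R} (hLM : L ≤ M)
  (hLbr : ∀ X ∈ L, ∀ Y ∈ L, X * Y - Y * X ∈ L)
  (hsur : ∀ i, ∀ x : S, x.trace = 0 → ∃ ξ ∈ XR φ L, ξ i = x)
  (hcom : ∀ T : R, (∀ X ∈ L, T * X = X * T) → ∀ X ∈ M, T * X = X * T)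

theorem XR_tr : ∀ ξ ∈ XR φ L, ∀ i, (ξ i).trace = 0 := by
  rintro ξ ⟨X, _, hξ⟩ i
  exact hξ.1 i

include hLbr in
theorem XR_br : ∀ ξ ∈ XR φ L, ∀ η ∈ XR φ L, (fun l => ξ l * η l - η l * ξ l) ∈ XR φ L := by
  rintro ξ ⟨X, hX, hξ⟩ η ⟨Y, hY, hη⟩
  exact ⟨_, hLbr X hX Y hY, h.dec_br hξ hη⟩

include hLM hLbr hsur in
/-- Linked colours, in terms of commutation. -/
theorem lk_iff {i k : I} : Lk φ L i k ↔ ∀ X ∈ L,
    (∀ x : S, x.trace = 0 → X * φ k x = φ k x * X) → ∀ x : S, x.trace = 0 →
      X * φ i x = φ i x * X := by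
  constructor
  · rintro ⟨Θ, h1, h2, h3⟩ X hX hk
    obtain ⟨ξ, hξ⟩ := h.dec X (hLM hX)
    have h4 := (h.comp_zero hξ k).2 hk
    have h5 := h3 ξ ⟨X, hX, hξ⟩
    rw [h4, map_zero] at h5
    exact (h.comp_zero hξ i).1 h5
  · intro h1
    by_contra hno
    obtain ⟨ξ, ⟨X, hX, hξ⟩, h2, h3⟩ := goursat (XR φ L) h.XR_tr (h.XR_br hLbr) hsur hno
      (trace_mk 0 1 0 : E.trace = 0)
    have h4 := (h.comp_zero hξ i).2 (h1 X hX ((h.comp_zero hξ k).1 h3))
    rw [h2] at h4
    exact E_ne h4

include hLM hLbr hsur in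
theorem lk_symm {i k : I} (hik : Lk φ L i k) : Lk φ L k i := by
  obtain ⟨Θ, h1, h2, h3⟩ := hik
  rw [h.lk_iff hLM hLbr hsur]
  intro X hX hi
  obtain ⟨ξ, hξ⟩ := h.dec X (hLM hX)
  have h4 := (h.comp_zero hξ i).2 hi
  rw [h3 ξ ⟨X, hX, hξ⟩] at h4
  exact (h.comp_zero hξ k).1 (theta_inj h1 h2 h4)

include hLM hLbr hsur in
theorem lk_equiv : Equivalence (Lk φ L) where
  refl i := ⟨LinearMap.id, fun _ _ => rfl, rfl, fun _ _ => rfl⟩
  symm hik := h.lk_symm hLM hLbr hsur hik
  trans := by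
    rintro i k l ⟨Θ, h1, h2, h3⟩ ⟨Θ', h1', h2', h3'⟩
    refine ⟨Θ.comp Θ', fun a b => ?_, ?_, fun ξ hξ => ?_⟩
    · rw [LinearMap.comp_apply, h1', h1]
      rfl
    · rw [LinearMap.comp_apply, h2', h2]
    · rw [h3 ξ hξ, h3' ξ hξ]
      rfl

include hLM hLbr hsur hcom in
/-- **The linking relation is invisible**: the commutant of the diagonal subalgebra is the commutant
of `M`. -/
theorem lk_invis (T : R) (hT : ∀ X ∈ M, ∀ ξ, DecR φ X ξ → (∀ i k, Lk φ L i k → ξ i = ξ k) →
    T * X = X * T) : ∀ X ∈ M, T * X = X * T := by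
  let st : Setoid I := ⟨Lk φ L, h.lk_equiv hLM hLbr hsur⟩
  let ρ : I → I := fun i => (Quotient.mk st i).out
  have hρ : ∀ i, Lk φ L i (ρ i) := fun i =>
    h.lk_symm hLM hLbr hsur (Quotient.exact (s := st) (Quotient.out_eq (Quotient.mk st i)))
  have hρ' : ∀ i k, Lk φ L i k → ρ i = ρ k := fun i k hik =>
    congrArg Quotient.out (Quotient.sound (s := st) hik)
  have key : ∀ i, ∃ u v : S, u * v = 1 ∧ v * u = 1 ∧ ∀ ξ ∈ XR φ L, ξ i = u * ξ (ρ i) * v := by
    intro i
    obtain ⟨Θ, h1, h2, h3⟩ := hρ i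
    obtain ⟨u, v, h4, h5, h6⟩ := inner h1 h2
    exact ⟨u, v, h4, h5, fun ξ hξ => by rw [h3 ξ hξ, h6]⟩
  choose u v huv hvu hΘ using key
  obtain ⟨g, g', h1, h2, h3, -, h4⟩ := h.exists_conj hvu huv Finset.univ
  obtain ⟨T', hT'⟩ : ∃ T', T' = g' * T * g := ⟨_, rfl⟩
  -- the conjugation of an element
  have hcj : ∀ X ξ, DecR φ X ξ → g * X * g' = ∑ i, φ i (v i * ξ i * u i) +
      (X - ∑ i, φ i (ξ i)) := by
    intro X ξ hξ
    have e1 : X = ∑ i, φ i (ξ i) + (X - ∑ i, φ i (ξ i)) := by abel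
    have e2 := h4 _ hξ.2
    conv_lhs => rw [e1]
    rw [mul_add, add_mul, e2, Finset.mul_sum, Finset.sum_mul]
    congr 1
    exact Finset.sum_congr rfl fun i _ => h3 i (Finset.mem_univ i) _
  have hcomL : ∀ X ∈ L, T' * X = X * T' := by
    intro X hX
    obtain ⟨ξ, hξ⟩ := h.dec X (hLM hX)
    have e1 := hcj X ξ hξ
    have e2 : ∀ i, v i * ξ i * u i = ξ (ρ i) := by
      intro i
      rw [hΘ i ξ ⟨X, hX, hξ⟩]
      calc v i * (u i * ξ (ρ i) * v i) * u i = (v i * u i) * ξ (ρ i) * (v i * u i) := by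
            simp only [mul_assoc]
        _ = ξ (ρ i) := by rw [hvu, one_mul, mul_one]
    simp only [e2] at e1
    have h5 : DecR φ (g * X * g') (fun i => ξ (ρ i)) := by
      refine ⟨fun i => hξ.1 _, ?_⟩
      rw [e1, add_sub_cancel_left]
      exact hξ.2
    have h6 : g * X * g' ∈ M := by
      rw [e1]
      exact M.add_mem (h.sum_mem fun i => hξ.1 _) (M.sub_mem (hLM hX) (h.sum_mem hξ.1))
    have h7 := hT _ h6 _ h5 fun i k hik => by rw [hρ' i k hik]
    have h8 : ∀ A B : R, g' * A * g * (g' * B * g) = g' * (A * B) * g := by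
      intro A B
      calc g' * A * g * (g' * B * g) = g' * A * (g * g') * B * g := by simp only [mul_assoc]
        _ = _ := by rw [h1, mul_one]; simp only [mul_assoc]
    have h9 : X = g' * (g * X * g') * g := by
      calc X = (g' * g) * X * (g' * g) := by rw [h2, one_mul, mul_one]
        _ = _ := by simp only [mul_assoc]
    rw [hT', h9, h8, h8, h7]
  have hcomM := hcom T' hcomL
  intro X hX
  obtain ⟨ξ, hξ⟩ := h.dec X hX
  obtain ⟨k, k', e1, e2, e3, -, e4⟩ := h.exists_conj huv hvu Finset.univ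
  -- the inverse conjugation
  have h5 : g' * X * g ∈ M := by
    have e5 : ∀ i x, g' * φ i x * g = φ i (u i * x * v i) := by
      intro i x
      have e6 := h3 i (Finset.mem_univ i) (u i * x * v i)
      have e7 : v i * (u i * x * v i) * u i = x := by
        calc v i * (u i * x * v i) * u i = (v i * u i) * x * (v i * u i) := by
              simp only [mul_assoc]
          _ = x := by rw [hvu, one_mul, mul_one]
      rw [e7] at e6
      rw [← e6]
      calc g' * (g * φ i (u i * x * v i) * g') * g =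
            (g' * g) * φ i (u i * x * v i) * (g' * g) := by simp only [mul_assoc]
        _ = _ := by rw [h2, one_mul, mul_one]
    have e6 : ∀ z, RC φ z → g' * z * g = z := by
      intro z hz
      conv_lhs => rw [← h4 z hz]
      calc g' * (g * z * g') * g = (g' * g) * z * (g' * g) := by simp only [mul_assoc]
        _ = _ := by rw [h2, one_mul, mul_one]
    have e7 : X = ∑ i, φ i (ξ i) + (X - ∑ i, φ i (ξ i)) := by abel
    rw [e7, mul_add, add_mul, e6 _ hξ.2, Finset.mul_sum, Finset.sum_mul]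
    refine M.add_mem (M.sum_mem fun i _ => ?_) (M.sub_mem hX (h.sum_mem hξ.1))
    rw [e5]
    refine h.mem i _ ?_
    rw [Matrix.trace_mul_comm, ← mul_assoc, hvu, one_mul, hξ.1]
  have h6 := hcomM _ h5
  rw [hT'] at h6
  have h8 : ∀ A B : R, g' * A * g * (g' * B * g) = g' * (A * B) * g := by
    intro A B
    calc g' * A * g * (g' * B * g) = g' * A * (g * g') * B * g := by simp only [mul_assoc]
      _ = _ := by rw [h1, mul_one]; simp only [mul_assoc]
  rw [h8, h8] at h6
  have h9 : ∀ A : R, A = g * (g' * A * g) * g' := by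
    intro A
    calc A = (g * g') * A * (g * g') := by rw [h1, one_mul, mul_one]
      _ = _ := by simp only [mul_assoc]
  rw [h9 (T * X), h6, ← h9]

include hLM hLbr hsur in
/-- If there are no links, every tuple is the tuple of the components of an element of `L`. -/
theorem all_comp (hno : ∀ i k, Lk φ L i k → i = k) {ξ : I → S} (hξ : ∀ i, (ξ i).trace = 0) :
    ξ ∈ XR φ L := by
  have h1 : ∀ i, Pi.single i (ξ i) ∈ XR φ L := by
    intro i
    obtain ⟨η, hη, h2, h3⟩ := ribet (XR φ L) h.XR_tr (h.XR_br hLbr) hsur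
      (fun i k hik hΘ => hik (hno i k hΘ)) (Finset.univ.erase i) i (Finset.notMem_erase i _) (hξ i)
    have h4 : Pi.single i (ξ i) = η := by
      funext k
      by_cases hk : k = i
      · subst hk
        rw [Pi.single_eq_same, h2]
      · rw [Pi.single_eq_of_ne hk, h3 k (Finset.mem_erase.2 ⟨hk, Finset.mem_univ k⟩)]
    rw [h4]
    exact hη
  have h2 : ξ = ∑ i, Pi.single i (ξ i) := (Finset.univ_sum_single ξ).symm
  rw [h2]
  exact Submodule.sum_mem _ fun i _ => h1 i

include hLM hLbr hsur in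
/-- If there are no links, the brackets of elements of `M` are brackets of elements of `L`, up to
elements which commute with the colours. -/
theorem br_mod (hno : ∀ i k, Lk φ L i k → i = k) {X Y : R} (hX : X ∈ M) (hY : Y ∈ M) :
    ∃ X' ∈ L, ∃ Y' ∈ L, RC φ ((X * Y - Y * X) - (X' * Y' - Y' * X')) := by
  obtain ⟨ξ, hξ⟩ := h.dec X hX
  obtain ⟨η, hη⟩ := h.dec Y hY
  obtain ⟨X', hX', h1⟩ := h.all_comp hLM hLbr hsur hno hξ.1
  obtain ⟨Y', hY', h2⟩ := h.all_comp hLM hLbr hsur hno hη.1
  refine ⟨X', hX', Y', hY', ?_⟩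
  have h3 := (h.dec_br hξ hη).2.sub (h.dec_br h1 h2).2
  have h4 : X * Y - Y * X - ∑ i, φ i (ξ i * η i - η i * ξ i) -
      (X' * Y' - Y' * X' - ∑ i, φ i (ξ i * η i - η i * ξ i)) =
      (X * Y - Y * X) - (X' * Y' - Y' * X') := by abel
  rwa [h4] at h3

end Col

end Pool.Agent.D0H89.TL
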