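import Pool.Agent.D0H89.TL.AVC

set_option autoImplicit false
set_option linter.unusedSectionVars false
set_option linter.unusedSimpArgs false
set_option linter.unusedVariables false

/-!
# Unlinked colourings
-/

open Module Function TensorProduct Matrix

noncomputable section

namespace Pool.Agent.D0H89.TL

open Pool.Agent.Y102 Pool.Agent.W516.DR Pool.Agent.H204R3.GP Pool.Agent.W516.KC
  Pool.Agent.H204R3.SP Pool.Agent.TH119.MX Pool.Agent.R917 Pool.Agent.N208.AM Pool.Agent.N113.BT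

variable {g : ℕ} {A : AbVar g} {I : Type} [Fintype I] [DecidableEq I]
  {φ : I → TA.S →ₗ[ℂ] Matrix (Fin (2 * g)) (Fin (2 * g)) ℂ}

/-- The trace of a nonzero idempotent matrix. -/
theorem trace_idem {m : ℕ} {p : Matrix (Fin m) (Fin m) ℂ} (h : p * p = p) (h0 : p ≠ 0) :
    ∃ t : ℝ, 0 < t ∧ p.trace = t := by
  have h1 : IsIdempotentElem (Matrix.toLinAlgEquiv' p) := by
    unfold IsIdempotentElem
    rw [← map_mul, h]
  have h2 : LinearMap.trace ℂ (Fin m → ℂ) (Matrix.toLinAlgEquiv' p) = p.trace := by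
    have h3 : (Matrix.toLinAlgEquiv' p : (Fin m → ℂ) →ₗ[ℂ] (Fin m → ℂ)) = Matrix.toLin' p := rfl
    rw [h3, Matrix.trace_toLin'_eq]
  have h3 := (LinearMap.IsIdempotentElem.isProj_range _ h1).trace
  rw [h2] at h3
  refine ⟨finrank ℂ (LinearMap.range (Matrix.toLinAlgEquiv' p)), ?_, by rw [h3]; push_cast; rfl⟩
  rw [Nat.cast_pos, Module.finrank_pos_iff, Submodule.nontrivial_iff_ne_bot]
  intro h4
  apply h0
  rw [LinearMap.range_eq_bot] at h4
  exact (map_eq_zero_iff _ (Matrix.toLinAlgEquiv' (R := ℂ) (n := Fin m)).injective).1 h4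

/-- A relation which could be a linking relation. -/
structure IsLink (A : AbVar g) (φ : I → TA.S →ₗ[ℂ] Matrix (Fin (2 * g)) (Fin (2 * g)) ℂ)
    (r : I → I → Prop) : Prop where
  equiv : Equivalence r
  gal : ∀ (τ : ℂ ≃+* ℂ) i k i' k', Mp φ (fun Y => Y.map τ) i i' → Mp φ (fun Y => Y.map τ) k k' →
    r i k → r i' k'
  cpt : ∀ i k, r i k → (∀ x, φ i x * mR A AbVar.JJ = mR A AbVar.JJ * φ i x) →
    ∀ x, φ k x * mR A AbVar.JJ = mR A AbVar.JJ * φ k x
  invis : ∀ T, (∀ X ∈ lC A.NA, ∀ ξ, DecR φ X ξ → (∀ i k, r i k → ξ i = ξ k) → T * X = X * T) →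
    ∀ X ∈ lC A.NA, T * X = X * T

variable (h : Col φ (lC A.NA)) (hgal : ∀ (τ : ℂ ≃+* ℂ) i, ∃ k, Mp φ (fun Y => Y.map τ) i k)
include h

theorem sur_full {𝔮 : Submodule ℚ (Module.End ℚ A.H1)} (hq : A.Full 𝔮) (i : I) (x : TA.S)
    (hx : x.trace = 0) : ∃ ξ ∈ XR φ (lC 𝔮), ξ i = x :=
  h.sur (lC_mono hq.le) (f_der hq) (f_br hq) (f_perf hq) (f_dec hq) (f_com hq) i x hx

include hgal

/-- The linking relation of a full subalgebra. -/
theorem isLink_lk {𝔮 : Submodule ℚ (Module.End ℚ A.H1)} (hq : A.Full 𝔮) :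
    IsLink A φ (Lk φ (lC 𝔮)) where
  equiv := h.lk_equiv (lC_mono hq.le) (f_br hq) (sur_full h hq)
  gal τ i k i' k' hi hk hik := by
    refine h.lk_gal (lC_mono hq.le) (f_br hq) (sur_full h hq) (RingEquiv.mapMatrix τ)
      (fun X hX => ?_) hi hk hik
    have h1 := map_mem_lC τ.symm hX
    have h2 : (RingEquiv.mapMatrix τ).symm X = X.map τ.symm := by
      rw [RingEquiv.symm_apply_eq]
      ext a b
      rw [RingEquiv.mapMatrix_apply, Matrix.map_apply, Matrix.map_apply, τ.apply_symm_apply]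
    rw [h2]
    exact h1
  cpt i k hik hi x := by
    refine h.compact_of_lk (c := RingEquiv.mapMatrix (starRingAut : ℂ ≃+* ℂ))
      (tr := Matrix.traceLinearMap (Fin (2 * g)) ℂ ℂ) (fun X => ?_) (fun a X => ?_)
      (fun X Y => Matrix.trace_mul_comm X Y) (fun X => ?_) JJ_mem mR_JJ (mR_conj _)
      (fun X hX => map_mem_lC (starRingAut : ℂ ≃+* ℂ) hX)
      (fun Y hY hc h0 => pos_lC hY hc h0) (fun i => hgal (starRingAut : ℂ ≃+* ℂ) i)
      (fun i => ?_) (lC_mono hq.le) (fun X hX => map_mem_lC (starRingAut : ℂ ≃+* ℂ) hX)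
      (sur_full h hq) hik hi x
    · ext a b
      exact Complex.conj_conj _
    · ext a' b
      change (starRingEnd ℂ) (a * X a' b) = (starRingEnd ℂ) a * (starRingEnd ℂ) (X a' b)
      rw [map_mul]
    · rw [Matrix.traceLinearMap_apply, Matrix.traceLinearMap_apply, Matrix.trace, Matrix.trace,
        map_sum]
      rfl
    · exact trace_idem (by rw [← h.mul, mul_one]) (h.one i)
  invis T hT := h.lk_invis (lC_mono hq.le) (f_br hq) (sur_full h hq) (f_com hq) T hT

/-- If the colouring is unlinked, full subalgebras contain the brackets, up to elements which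
commute with the colours. -/
theorem der_full (hU : ∀ r, IsLink A φ r → ∀ i k, r i k → i = k)
    {𝔮 : Submodule ℚ (Module.End ℚ A.H1)} (hq : A.Full 𝔮) {X : Module.End ℚ A.H1}
    (hX : X ∈ der A.NA) : ∃ y ∈ lC (der 𝔮), RC φ (toC X - y) := by
  have hno := hU _ (isLink_lk h hgal hq)
  unfold der at hX
  induction hX using Submodule.span_induction with
  | mem X hX =>
    obtain ⟨X, hX, Y, hY, rfl⟩ := hX
    obtain ⟨X', hX', Y', hY', h1⟩ := h.br_mod (lC_mono hq.le) (f_br hq) (sur_full h hq) hno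
      (toC_mem hX) (toC_mem hY)
    refine ⟨X' * Y' - Y' * X', ?_, ?_⟩
    · rw [mem_lC, map_sub, map_mul, map_mul]
      refine cx_br (T := cx (der 𝔮)) (fun X hX Y hY => ?_) _ (mem_lC.1 hX') _ (mem_lC.1 hY')
      rw [← bc_br]
      exact bc_mem (Submodule.subset_span ⟨X, hX, Y, hY, rfl⟩)
    · have h2 : toC (X * Y - Y * X) = toC X * toC Y - toC Y * toC X := by
        apply (matE (2 * g)).injective
        rw [matE_toC, map_sub, map_mul, map_mul, matE_toC, matE_toC, bc_br]
      rw [h2]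
      exact h1
  | zero =>
    refine ⟨0, Submodule.zero_mem _, ?_⟩
    have h2 : toC (0 : Module.End ℚ A.H1) = 0 := by
      apply (matE (2 * g)).injective
      rw [matE_toC, map_zero, LinearMap.baseChange_zero]
    rw [h2, sub_zero]
    exact RC.zero
  | add a b _ _ ha hb =>
    obtain ⟨x, hx, h1⟩ := ha
    obtain ⟨y, hy, h2⟩ := hb
    refine ⟨x + y, Submodule.add_mem _ hx hy, ?_⟩
    have h3 : toC (a + b) = toC a + toC b := by
      apply (matE (2 * g)).injective
      rw [matE_toC, map_add, matE_toC, matE_toC, LinearMap.baseChange_add]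
    have h4 : toC (a + b) - (x + y) = (toC a - x) + (toC b - y) := by rw [h3]; abel
    rw [h4]
    exact h1.add h2
  | smul c a _ ha =>
    obtain ⟨x, hx, h1⟩ := ha
    refine ⟨(c : ℂ) • x, Submodule.smul_mem _ _ hx, ?_⟩
    have h3 : toC (c • a) = (c : ℂ) • toC a := by
      ext i j
      simp [toC]
    rw [h3, ← smul_sub]
    exact h1.smul _

end Pool.Agent.D0H89.TL
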